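import Mathlib
import Pool.Agent.helper67.RG.FDefs

/-!
# Project HZ (MP_2e0e07_nt, HorizontalCriterion): definitions

Reductions modulo primes `p j` of the compatible systems `P i`, `Q`, and the degree over the field
cut out by the reductions of the `V i` of the compositum with the field cut out by the
adjoint representation of the reduction of `ρ`.
-/

namespace Pool.Agent.HZ

open Matrix Polynomial Pool.Agent.GO Pool.Agent.AR Pool.Agent.RG NumberField

/-- The element `x` of the number field `E` is integral at the place given by the homomorphism `φ`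
from the integers of `E` and has the reduction `y`. -/
def Red {E κ : Type*} [Field E] [Field κ] (φ : 𝓞 E →+* κ) (x : E) (y : κ) : Prop :=
  ∃ (a : 𝓞 E) (m : ℕ), (m : κ) ≠ 0 ∧ (m : E) * x = algebraMap (𝓞 E) E a ∧ (m : κ) * y = φ a

/-- The kernel of `ad ρ`: the elements acting by scalars. -/
def adKer {Γ F : Type*} [Group Γ] [Field F] (ρ : Γ →* Matrix (Fin 2) (Fin 2) F) : Subgroup Γ where
  carrier := {g | ∃ c : F, ρ g = c • (1 : Matrix (Fin 2) (Fin 2) F)}
  one_mem' := ⟨1, by rw [map_one, one_smul]⟩
  mul_mem' := by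
    rintro a b ⟨c, hc⟩ ⟨d, hd⟩
    exact ⟨c * d, by rw [map_mul, hc, hd, Matrix.smul_mul, Matrix.mul_smul, one_mul, smul_smul]⟩
  inv_mem' := by
    rintro a ⟨c, hc⟩
    have h1 : ρ a * ρ a⁻¹ = 1 := by rw [← map_mul, mul_inv_cancel, map_one]
    rw [hc, Matrix.smul_mul, one_mul] at h1
    have hc0 : c ≠ 0 := by
      rintro rfl
      rw [zero_smul] at h1
      exact zero_ne_one h1
    exact ⟨c⁻¹, by rw [← h1, smul_smul, inv_mul_cancel₀ hc0, one_smul]⟩

/-- The common kernel of the `V i`. -/
def kerV {Γ F : Type*} [Group Γ] [CommRing F] {r : ℕ} {n : Fin r → ℕ}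
    (V : (i : Fin r) → Γ →* Matrix (Fin (n i)) (Fin (n i)) F) : Subgroup Γ :=
  ⨅ i, (V i).ker

/-- The index of `ker V ∩ ker (ad ρ)` in `ker V`: for Galois groups the degree
`[K(ad ρ) K(V) : K(V)]` of the compositum of the fields cut out by `ad ρ` and by `V` over the
field cut out by `V`. -/
noncomputable def adDegree {Γ F F' : Type*} [Group Γ] [Field F] [CommRing F'] {r : ℕ} {n : Fin r → ℕ}
    (V : (i : Fin r) → Γ →* Matrix (Fin (n i)) (Fin (n i)) F')
    (ρ : Γ →* Matrix (Fin 2) (Fin 2) F) : ℕ :=
  (adKer ρ).relIndex (kerV V)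

/-- Reductions modulo the primes `p j` (`j ∈ J`, every prime is `p j` for finitely many `j` only):
`φ j` is a place of the number field `E` above `p j`, the `V j i` are representations over the
field with `p j` elements, `ρ j` is a representation of dimension two over the field `κ j` of
characteristic `p j`, with open kernels. For every Frobenius element `s` at a place `v` outside a
finite set (depending on `j`, and containing a given place, outside a fixed finite set, for
finitely many `j` only) the characteristic polynomials of `V j i s` and `ρ j s` are the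
reductions of `P i v` and `Q v`. The `ρ j` are irreducible, and `p j` divides the order of
the image of `ρ j`: there is an element of order `p j`. -/
structure IsResidual {Γ Place E : Type*} [Group Γ] [TopologicalSpace Γ] [Field E]
    (frob : Place → Set Γ) {r : ℕ} {n : Fin r → ℕ} (P : Fin r → Place → E[X]) (Q : Place → E[X])
    {J : Type} (p : J → ℕ) (κ : J → Type) [∀ j, Field (κ j)] [∀ j, CharP (κ j) (p j)]
    (φ : ∀ j, 𝓞 E →+* κ j)
    (V : ∀ j, (i : Fin r) → Γ →* Matrix (Fin (n i)) (Fin (n i)) (ZMod (p j)))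
    (ρ : ∀ j, Γ →* Matrix (Fin 2) (Fin 2) (κ j)) : Prop where
  prime : ∀ j, (p j).Prime
  tends : ∀ m : ℕ, {j | p j ≤ m}.Finite
  openV : ∀ j i, IsOpen ((V j i).ker : Set Γ)
  openρ : ∀ j, IsOpen ((ρ j).ker : Set Γ)
  comp : ∃ (T₀ : Set Place) (T : J → Set Place), T₀.Finite ∧ (∀ j, (T j).Finite) ∧
    (∀ v ∉ T₀, {j | v ∈ T j}.Finite) ∧ ∀ j, ∀ v ∉ T j, ∀ s ∈ frob v,
      (∀ i k, Red (φ j) ((P i v).coeff k)
        (ZMod.castHom (dvd_refl (p j)) (κ j) ((V j i s).charpoly.coeff k))) ∧
      ∀ k, Red (φ j) ((Q v).coeff k) ((ρ j s).charpoly.coeff k)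
  irr : ∀ j, Irred (fun g => ρ j g)
  ord : ∀ j, ∃ g, orderOf (ρ j g) = p j

/-! ## Auxiliary definitions (not used in the final statement) -/

/-- The homomorphism `π` identifies `k` with the ultraproduct of the fields `κ j` of
characteristic `p j`, `p j → ∞`. -/
structure IsUP {J : Type} (𝒰 : Ultrafilter J) {κ : J → Type} [∀ j, Field (κ j)] (p : J → ℕ)
    {k : Type} [Field k] (π : (∀ j, κ j) →+* k) : Prop where
  prime : ∀ j, (p j).Prime
  char : ∀ j, CharP (κ j) (p j)
  lim : ∀ m : ℕ, ∀ᶠ j in (𝒰 : Filter J), m < p j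
  surj : Function.Surjective π
  zero : ∀ x, π x = 0 ↔ ∀ᶠ j in (𝒰 : Filter J), x j = 0

section star

variable {J : Type} {κ : J → Type} [∀ j, Field (κ j)] {Γ : Type*} [Group Γ] {m : Type*}
  [Fintype m] [DecidableEq m]

/-- the matrix of the `W j (g j)` over the product ring -/
def mt (W : ∀ j, Γ →* Matrix m m (κ j)) (g : J → Γ) : Matrix m m (∀ j, κ j) :=
  Matrix.of fun a b j => W j (g j) a b

/-- the ultraproduct of the representations `W j`, a representation of the group of all functions
`J → Γ` over `k` -/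
def star {k : Type} [Field k] (π : (∀ j, κ j) →+* k) (W : ∀ j, Γ →* Matrix m m (κ j)) :
    (J → Γ) →* Matrix m m k where
  toFun g := (mt W g).map π
  map_one' := by
    have h : mt W 1 = 1 := by
      ext a b j
      show W j ((1 : J → Γ) j) a b = (1 : Matrix m m (∀ j, κ j)) a b j
      rw [Pi.one_apply, map_one]
      by_cases hab : a = b
      · subst hab; simp
      · simp [hab]
    rw [h, Matrix.map_one π (map_zero π) (map_one π)]
  map_mul' g h := by
    have e : mt W (g * h) = mt W g * mt W h := by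
      ext a b j
      show W j ((g * h) j) a b = (mt W g * mt W h) a b j
      rw [Pi.mul_apply, map_mul, Matrix.mul_apply, Matrix.mul_apply, Finset.sum_apply]
      rfl
    rw [e, Matrix.map_mul]

/-- the sequences of elements of order dividing `p j` in the images of `W j` and `ρ j` -/
def pel (p : J → ℕ) (W : ∀ j, Γ →* Matrix m m (κ j)) (ρ : ∀ j, Γ →* Matrix (Fin 2) (Fin 2) (κ j)) :
    Set (J → Γ) :=
  {w | ∀ j, W j (w j) ^ p j = 1 ∧ ρ j (w j) ^ p j = 1}

end star

section powers

variable {m : Type*} [Fintype m] [DecidableEq m]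

/-- `1 / i!` -/
def cf (R : Type*) [CommRing R] [Inv R] (i : ℕ) : R := ((i.factorial : ℕ) : R)⁻¹

/-- The matrix `A ^ T = ∑ i < n, binom(T, i) (A - 1) ^ i`, for a unipotent matrix `A` of size at
most `n` over `R` and an element `T` of an `R`-algebra `S`. -/
def PW {R : Type*} [CommRing R] [Inv R] (n : ℕ) (A : Matrix m m R) {S : Type*} [CommRing S]
    [Algebra R S] (T : S) : Matrix m m S :=
  ∑ i ∈ Finset.range n, (algebraMap R S (cf R i) * ∏ l ∈ Finset.range i, (T - (l : S))) •
    ((A - 1) ^ i).map (algebraMap R S)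

/-- The product of the `A i ^ X i`, a matrix of polynomials. -/
noncomputable def psi {R : Type*} [CommRing R] [Inv R] {N : ℕ} (n : ℕ)
    (A : Fin N → Matrix m m R) : Matrix m m (MvPolynomial (Fin N) R) :=
  (List.ofFn fun i => PW n (A i) (MvPolynomial.X i : MvPolynomial (Fin N) R)).prod

/-- The logarithm of a unipotent matrix of size at most `n`. -/
def Lg {k : Type*} [Field k] (n : ℕ) (A : Matrix m m k) : Matrix m m k :=
  ∑ i ∈ Finset.range n, ((-1) ^ (i + 1) * ((i : ℕ) : k)⁻¹) • (A - 1) ^ i

end powers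

/-- The `k`-span of the pairs of logarithms of the elements of `pel`. -/
def LL {J : Type} {κ : J → Type} [∀ j, Field (κ j)] {Γ : Type*} [Group Γ] {m : Type*}
    [Fintype m] [DecidableEq m] {k : Type} [Field k] (π : (∀ j, κ j) →+* k) (p : J → ℕ)
    (W : ∀ j, Γ →* Matrix m m (κ j)) (ρ : ∀ j, Γ →* Matrix (Fin 2) (Fin 2) (κ j)) :
    Submodule k (Matrix m m k × Matrix (Fin 2) (Fin 2) k) :=
  Submodule.span k ((fun w => (Lg (Fintype.card m) (star π W w), Lg 2 (star π ρ w))) ''
    pel p W ρ)

/-- The value of a polynomial over the product ring at `j ∈ J` and a point `t` with natural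
coordinates. -/
noncomputable def vl {J : Type} {κ : J → Type} [∀ j, Field (κ j)] {N : ℕ}
    (f : MvPolynomial (Fin N) (∀ j, κ j)) (j : J) (t : Fin N → ℕ) : κ j :=
  MvPolynomial.eval (fun i => ((t i : ℕ) : κ j)) (MvPolynomial.map (Pi.evalRingHom κ j) f)

/-- the points with coordinates in `{0, ..., q - 1}` -/
def box (N q : ℕ) : Finset (Fin N → ℕ) := Fintype.piFinset fun _ => Finset.range q

end Pool.Agent.HZ
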