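import Mathlib
import Pool.Agent.helper91.HZ.Defs
import Pool.Agent.helper67.RG.TT

/-!
# Project HZ (MP_2e0e07_nt, HorizontalCriterion): the rows

Rows are the definitions `XX_stmt : Prop`; prove `theorem XX (h1 : AA_stmt) ... : XX_stmt` in
`Pool/Agent/<you>/HZ/XX.lean`, namespace `Pool.Agent.HZ`, import `Pool.Agent.helper91.HZ.Spec`;
auxiliary lemmas are named `XX_...`. A complete proof of every row is in its docstring. The paper
proof is `/team-store/TT_2e0e07_helper91.md`.

Everywhere `𝒰` is an ultrafilter on `J`, `κ j` are fields of characteristic `p j`, `k` is the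
ultraproduct, `π` the projection (`IsUP`). Facts to use all the time: `π x = π y` iff `x j = y j` for
`𝒰`-almost all `j`; for `f : MvPolynomial (Fin N) (∀ j, κ j)`: `map π f = 0` iff `map (evalRingHom
j) f = 0` for `𝒰`-almost all `j` (the support of `f` is finite), and `map π` is surjective.
-/

namespace Pool.Agent.HZ

open Matrix Polynomial Pool.Agent.GO Pool.Agent.AR Pool.Agent.RG MeasureTheory NumberField

universe u v

/-! ## Section 1: the ultraproduct -/

/-- Row UPF. The ultraproduct of algebraically closed fields of characteristics tending to infinity is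
an algebraically closed field of characteristic zero.
Proof. `I = {x | ∀ᶠ j in 𝒰, x j = 0}` is an ideal of the product ring, maximal: if `x ∉ I` then
`x j ≠ 0` for almost all `j` (`Ultrafilter.eventually_not`) and with `y j = (x j)⁻¹` the element
`x y - 1` is in `I`. `k` is the quotient (`Ideal.Quotient.field`), `π` the projection. If `(n : k) = 0`,
then `(n : κ j) = 0`, `p j ∣ n` for almost all `j`, also `n < p j`, so `n = 0`. Algebraically closed
(`IsAlgClosed.of_exists_root`): lift a monic irreducible polynomial of degree `d > 0` to a monic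
polynomial of degree `d` over the product ring (`Polynomial.lifts_and_natDegree_eq_and_monic`), its
images in `(κ j)[X]` are monic of degree `d`, choose roots `r j`; then `π r` is a root. -/
def UPF_stmt : Prop := ∀ {J : Type} (𝒰 : Ultrafilter J) (κ : J → Type) [∀ j, Field (κ j)]
  [∀ j, IsAlgClosed (κ j)] (p : J → ℕ), (∀ j, (p j).Prime) → (∀ j, CharP (κ j) (p j)) →
  (∀ m : ℕ, ∀ᶠ j in (𝒰 : Filter J), m < p j) →
  ∃ (k : Type) (_ : Field k) (_ : CharZero k) (_ : IsAlgClosed k) (π : (∀ j, κ j) →+* k),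
    IsUP 𝒰 p π

/-- Row ULT. An ultrafilter.
Proof. The sets `{j | c * d j < p j} \ s` (`c : ℕ`, `s` finite) are infinite, so nonempty, and decreasing
in `c` and `s`: they generate a filter different from `⊥` (e.g. `Filter.cofinite ⊓ ⨅ c, 𝓟 {j | c * d j < p j}`,
or `Filter.HasBasis`), take an ultrafilter below it (`Ultrafilter.of`). `{j | p j ≤ m}` is finite. -/
def ULT_stmt : Prop := ∀ {J : Type} (p d : J → ℕ), (∀ m : ℕ, {j | p j ≤ m}.Finite) →
  (∀ c : ℕ, {j | c * d j < p j}.Infinite) →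
  ∃ 𝒰 : Ultrafilter J, (∀ m : ℕ, ∀ᶠ j in (𝒰 : Filter J), m < p j) ∧
    (∀ c : ℕ, ∀ᶠ j in (𝒰 : Filter J), c * d j < p j) ∧
    ∀ s : Set J, s.Finite → ∀ᶠ j in (𝒰 : Filter J), j ∉ s

/-! ## Section 2: counting -/

/-- Row SZ. The zeros of a nonzero polynomial (Schwartz-Zippel).
Proof. `map π f ≠ 0`, so for almost all `j` the polynomial `f_j = map (evalRingHom j) f` is not zero
(otherwise, by the ultrafilter property, it is zero for almost all `j`, so all coefficients of
`map π f` vanish). `D = f.totalDegree`, `f_j.totalDegree ≤ D`. Apply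
`MvPolynomial.schwartz_zippel_totalDegree` with `S` = the image of `Finset.range (p j)` in `κ j`, a
set with `p j` elements (`CharP.natCast_injOn_Iio`), `t ↦ (t i : κ j)` is a bijection from
`box N (p j)` to `piFinset fun _ => S`; `s` = the set of zeros in the box. Clear denominators. -/
def SZ_stmt : Prop := ∀ {J : Type} (𝒰 : Ultrafilter J) {κ : J → Type} [∀ j, Field (κ j)]
  (p : J → ℕ) {k : Type} [Field k] (π : (∀ j, κ j) →+* k), IsUP 𝒰 p π →
  ∀ (N : ℕ) (f : MvPolynomial (Fin N) (∀ j, κ j)), MvPolynomial.map π f ≠ 0 →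
  ∃ D : ℕ, ∀ᶠ j in (𝒰 : Filter J), ∃ s : Finset (Fin N → ℕ), s.card * p j ≤ D * p j ^ N ∧
    ∀ t ∈ box N (p j), vl f j t = 0 → t ∈ s

/-- Row BTO. If `z` is algebraic over the algebra of the `y a`, then for almost all `j` and off a
hypersurface the values of the `y a` leave at most `D` possibilities for the value of `z`.
Proof. Let `G ≠ 0` be a polynomial over `Algebra.adjoin k (range ȳ)` (`ȳ a = map π (y a)`) with root
`z̄ = map π z`, of degree `D`. Its coefficients are `aeval ȳ (g i)` with `g i : MvPolynomial (Fin m) k`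
(`Algebra.adjoin_range_eq_range_aeval`), lift `g i` to `h i : MvPolynomial (Fin m) (∀ j, κ j)`
(`MvPolynomial.map_surjective`). `Δ = aeval y (h D)` satisfies `map π Δ = ` leading coefficient of `G`,
not zero. `R = ∑ i ≤ D, aeval y (h i) * z ^ i` satisfies `map π R = 0`, so `vl R j t = 0` for almost all
`j` and ALL `t` (its support is finite). Now `vl R j t = ∑ i, (eval η h_{i,j}) * (vl z j t) ^ i` with
`η a = vl (y a) j t`, so `vl z j t` is a root of `G_{j,η} = ∑ i ≤ D, C (eval η h_{i,j}) X ^ i`, whose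
coefficient of `X ^ D` is `vl Δ j t`. `s` = the roots of `G_{j,η}` if it is not zero (`∅` if it is). -/
def BTO_stmt : Prop := ∀ {J : Type} (𝒰 : Ultrafilter J) {κ : J → Type} [∀ j, Field (κ j)]
  (p : J → ℕ) {k : Type} [Field k] (π : (∀ j, κ j) →+* k), IsUP 𝒰 p π →
  ∀ (N m : ℕ) (y : Fin m → MvPolynomial (Fin N) (∀ j, κ j))
    (z : MvPolynomial (Fin N) (∀ j, κ j)),
  IsAlgebraic (Algebra.adjoin k (Set.range fun a => MvPolynomial.map π (y a)))
    (MvPolynomial.map π z) →
  ∃ (Δ : MvPolynomial (Fin N) (∀ j, κ j)) (D : ℕ), MvPolynomial.map π Δ ≠ 0 ∧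
    ∀ᶠ j in (𝒰 : Filter J), ∀ η : Fin m → κ j, ∃ s : Finset (κ j), s.card ≤ D ∧
      ∀ t : Fin N → ℕ, vl Δ j t ≠ 0 → (∀ a, vl (y a) j t = η a) → vl z j t ∈ s

/-- Row TRB. Selection of a transcendence basis.
Proof. `A = Algebra.adjoin k (range y)` is a domain; by `exists_isTranscendenceBasis_subset` there is a
transcendence basis of `A` over `k` contained in `range y`, finite, so of the form `l ↦ y (σ l)`,
`σ : Fin b → Fin m`; every element of `A` is algebraic over the algebra generated by it. The family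
of the `y (σ l)` together with `X i₀` is algebraically independent over `k` in
`MvPolynomial (Fin N) k` (`X i₀` is transcendental over `A`), so it has at most `N` elements
(`AlgebraicIndependent.cardinalMk_le_trdeg`, `MvPolynomial.trdeg_of_isDomain`). Alternatively
apply `exists_isTranscendenceBasis_between` in `MvPolynomial (Fin N) k`. -/
def TRB_stmt : Prop := ∀ {k : Type} [Field k] (N m : ℕ) (y : Fin m → MvPolynomial (Fin N) k)
  (i₀ : Fin N), Transcendental (Algebra.adjoin k (Set.range y))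
    (MvPolynomial.X i₀ : MvPolynomial (Fin N) k) →
  ∃ (b : ℕ) (σ : Fin b → Fin m), b < N ∧
    ∀ a, IsAlgebraic (Algebra.adjoin k (Set.range fun l => y (σ l))) (y a)

/-- Row PIG. Counting by two maps.
Proof. `Finset.card_le_mul_card_image` twice: `T.card ≤ C * (T.image g').card` with
`g' t = (f t, g t)`, whose fibers are in the fibers of `g`; `(T.image g').card ≤ M * (T.image f).card`
since the fiber over `y` injects to `{g t | f t = y}`. -/
def PIG_stmt : Prop := ∀ {T Y U : Type} [DecidableEq Y] [DecidableEq U] (S : Finset T) (f : T → Y)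
  (g : T → U) (B C M : ℕ), (S.image f).card ≤ B →
  (∀ u, ∃ s : Finset T, s.card ≤ C ∧ ∀ t ∈ S, g t = u → t ∈ s) →
  (∀ y, ∃ s : Finset U, s.card ≤ M ∧ ∀ t ∈ S, f t = y → g t ∈ s) → S.card ≤ C * M * B

/-- Row CNT. The counting argument: if all variables are algebraic over the `u a`, and one variable is
transcendental over the `y a`, then for given values of the `y a` (which are in the prime field)
the values of the `u a` are not `o(p j)` in number.
Proof. Row TRB for `map π (y a)`: `b < N`, `σ`. Row BTO for `u` and `z = X i` gives `Δ i`, `D i` for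
`i < N`; row BTO for `y ∘ σ` and `z = y a` gives `Δ' a`, `D' a` for `a < m`. `Δ` = the product of all
of them, `map π Δ ≠ 0`; row SZ for `Δ` gives `D`. `C₁ = ∏ D i`, `C₂ = ∏ D' a`, `c = 2 C₁ C₂ + 1`.
Take `j` for which all the finitely many almost-all statements hold, the last hypothesis for `c`,
and `p j > c D`. Let `S` be the set of `t` in the box with `vl Δ j t ≠ 0`:
`p ^ N ≤ S.card + s.card`, `s.card p ≤ D p ^ N`. Apply row PIG with `f t = (vl (y a) j t)_a`,
`g t = (vl (u a) j t)_a`, `B = p ^ b C₂` (the values of `y (σ l)` are among the `p` elements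
`0, ..., p - 1` of `κ j`; for given values of these there are at most `D' a` values of `y a`), `C = C₁`
(for given `u` there are at most `D i` values of `(t i : κ j)`, and `t i < p` is determined by it),
`M = p / c`. So `c S.card ≤ C₁ C₂ p ^ (b + 1) ≤ C₁ C₂ p ^ N` and
`c (p ^ (N + 1) - D p ^ N) ≤ c S.card p ≤ C₁ C₂ p ^ (N + 1)`, so `c (p - D) ≤ C₁ C₂ p`, so
`(C₁ C₂ + 1) p ≤ c D`, contradiction. Rows SZ, BTO, TRB, PIG may be taken as hypotheses. -/
def CNT_stmt : Prop := ∀ {J : Type} (𝒰 : Ultrafilter J) {κ : J → Type} [∀ j, Field (κ j)]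
  (p : J → ℕ) {k : Type} [Field k] (π : (∀ j, κ j) →+* k), IsUP 𝒰 p π →
  ∀ (N m m' : ℕ) (y : Fin m → MvPolynomial (Fin N) (∀ j, κ j))
    (u : Fin m' → MvPolynomial (Fin N) (∀ j, κ j)),
  (∀ i, IsAlgebraic (Algebra.adjoin k (Set.range fun a => MvPolynomial.map π (u a)))
    (MvPolynomial.X i : MvPolynomial (Fin N) k)) →
  (∃ i, Transcendental (Algebra.adjoin k (Set.range fun a => MvPolynomial.map π (y a)))
    (MvPolynomial.X i : MvPolynomial (Fin N) k)) →
  (∀ᶠ j in (𝒰 : Filter J), ∀ a t, ∃ s : ℕ, vl (y a) j t = (s : κ j)) →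
  (∀ c : ℕ, ∀ᶠ j in (𝒰 : Filter J), ∀ t : Fin N → ℕ, ∃ s : Finset (Fin m' → κ j),
    c * s.card ≤ p j ∧ ∀ t' : Fin N → ℕ, (∀ a, vl (y a) j t' = vl (y a) j t) →
      (fun a => vl (u a) j t') ∈ s) → False

/-! ## Section 3: powers of unipotent matrices -/

/-- Row PSE. Values of `psi` at natural numbers.
Proof. `MvPolynomial.eval` is a ring homomorphism, so maps the product of matrices to the product
(`map_list_prod` for `RingHom.mapMatrix`, `List.map_ofFn`); `PW n A (X l)` is mapped to
`PW n A (t : κ)` with `S = κ`. And `PW n A (t : κ) = ∑ i < n, (i!)⁻¹ t (t-1) ... (t-i+1) (A-1)^i =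
∑ i < n, choose t i • (A-1)^i = (1 + (A - 1)) ^ t` (`Commute.add_pow`, terms with `i ≥ n` vanish;
`Nat.descFactorial_eq_factorial_mul_choose`, `descPochhammer_eval_eq_descFactorial` or induction:
`∏ l < i, ((t : κ) - l) = (t.descFactorial i : κ)`). -/
def PSE_stmt : Prop := ∀ {κ m : Type} [Field κ] [Fintype m] [DecidableEq m] (n N : ℕ)
  (A : Fin N → Matrix m m κ), (∀ i < n, ((i.factorial : ℕ) : κ) ≠ 0) →
  (∀ l, (A l - 1) ^ n = 0) → ∀ t : Fin N → ℕ,
  (psi n A).map (MvPolynomial.eval fun i => ((t i : ℕ) : κ)) =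
    (List.ofFn fun i => A i ^ t i).prod

/-- Row PSM. `psi` and homomorphisms of rings.
Proof. As for row PSE: `MvPolynomial.map f` maps `PW n A (X l)` to `PW n (A.map f) (X l)`. -/
def PSM_stmt : Prop := ∀ {R R' m : Type} [CommRing R] [Inv R] [CommRing R'] [Inv R'] [Fintype m]
  [DecidableEq m] (f : R →+* R') (n N : ℕ) (A : Fin N → Matrix m m R),
  (∀ i < n, f (cf R i) = cf R' i) →
  (psi n A).map (MvPolynomial.map f) = psi n (fun l => (A l).map f)

/-- Row NIL. Elements of order `p` are unipotent.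
Proof. (1) `(A - 1) ^ p = A ^ p - 1 = 0` (`sub_pow_char_of_commute` / `sub_pow_expChar`), so `A - 1` is
nilpotent, so its characteristic polynomial is `X ^ card m` (`Matrix.isNilpotent_charpoly_sub_pow_of_isNilpotent`,
the field is reduced) and by Cayley-Hamilton `(A - 1) ^ card m = 0`. `(det A - 1) ^ p = det A ^ p - 1 = 0`.
(2) Apply (1) for every `j` and `π` (`star π W w = (mt W w).map π`; a power of `mt W w - 1` has the
components `(W j (w j) - 1) ^ n`; `RingHom.map_det`). -/
def NIL_stmt : Prop :=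
  (∀ {κ m : Type} [Field κ] [Fintype m] [DecidableEq m] (p n : ℕ), p.Prime → CharP κ p →
    Fintype.card m ≤ n → ∀ A : Matrix m m κ, A ^ p = 1 → (A - 1) ^ n = 0 ∧ A.det = 1) ∧
  ∀ {J : Type} (𝒰 : Ultrafilter J) {κ : J → Type} [∀ j, Field (κ j)] (p : J → ℕ) {k : Type}
    [Field k] (π : (∀ j, κ j) →+* k), IsUP 𝒰 p π → ∀ {Γ m : Type} [Group Γ] [Fintype m]
    [DecidableEq m] (W : ∀ j, Γ →* Matrix m m (κ j)) (n : ℕ) (w : J → Γ), Fintype.card m ≤ n →
    (∀ j, W j (w j) ^ p j = 1) → (star π W w - 1) ^ n = 0 ∧ (star π W w).det = 1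

/-- Row VPS. The values of `psi` for the matrices over the product ring, and its image over `k`.
Proof. `evalRingHom j` maps `cf i` to `cf i` (the inverse of the product ring is componentwise), so
by row PSM `vl (psi ..) j t` is the entry of the value of `psi n (fun l => W j (w l j))` at `t`; if
`n ≤ p j` then `i! ≠ 0` in `κ j` for `i < n`; row NIL (1) and row PSE:
`(List.ofFn fun l => W j (w l j) ^ t l).prod = W j ((List.ofFn fun l => w l j ^ t l).prod)`
(`map_list_prod`). Second statement: row PSM for `π`: `π (cf i) = cf i` for all `i`, because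
`(i! : ∀ j, κ j) * cf i` has the component `1` for almost all `j` and `π` is zero on functions zero
almost everywhere (`IsUP.zero`). Rows PSE, PSM, NIL may be taken as hypotheses. -/
def VPS_stmt : Prop := ∀ {J : Type} (𝒰 : Ultrafilter J) {κ : J → Type} [∀ j, Field (κ j)]
  (p : J → ℕ) {k : Type} [Field k] [CharZero k] (π : (∀ j, κ j) →+* k), IsUP 𝒰 p π →
  ∀ {Γ m : Type} [Group Γ] [Fintype m] [DecidableEq m] (W : ∀ j, Γ →* Matrix m m (κ j))
    (n N : ℕ) (w : Fin N → J → Γ), Fintype.card m ≤ n → (∀ l j, W j (w l j) ^ p j = 1) →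
  (∀ᶠ j in (𝒰 : Filter J), ∀ (a b : m) (t : Fin N → ℕ),
    vl (psi n (fun l => mt W (w l)) a b) j t =
      W j (List.ofFn fun l => w l j ^ t l).prod a b) ∧
  (psi n fun l => mt W (w l)).map (MvPolynomial.map π) = psi n fun l => star π W (w l)

/-- Row PSD. The partial derivatives of `psi` at natural points: with `g` the product of the
`w l ^ t l` for `l < i` and `g_t` the product of all of them, the derivative is
`log (V (g w_i g⁻¹)) V(g_t)`.
Proof. Only the factor `PW n A_i (X i)` of the product contains `X i` (`Derivation` of a product of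
a list, or induction on `N`, or split `List.ofFn` at `i`), so the value is
`V(g) * (d/dT PW n A_i)(t i) * ∏ l > i, V (w l) ^ t l`. In `k[T]`: `PW n A (T + s) = PW n A T * A ^ s`
for `s : ℕ` because both sides agree for `T` a natural number (row PSE with one variable) and
`k` is infinite; differentiate and put `T = 0`: `(d/dT PW n A)(s) = (d/dT PW n A)(0) * A ^ s`, and
`(d/dT PW n A)(0) = Lg n A`: the derivative of `T (T - 1) ... (T - i + 1)` at `0` is
`∏ 1 ≤ l < i, (-l) = (-1)^(i-1) (i-1)!` for `i ≥ 1` and `0` for `i = 0`. Finally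
`V g * Lg n A_i * A_i ^ t_i * ... = Lg n (V (g w_i g⁻¹)) * V g * A_i ^ t_i * ...`. -/
def PSD_stmt : Prop := ∀ {k m G : Type} [Field k] [CharZero k] [Fintype m] [DecidableEq m]
  [Group G] (V : G →* Matrix m m k) (n N : ℕ) (w : Fin N → G), (∀ l, (V (w l) - 1) ^ n = 0) →
  ∀ (i : Fin N) (t : Fin N → ℕ),
  (psi n fun l => V (w l)).map
      (fun f => MvPolynomial.eval (fun l => ((t l : ℕ) : k)) (MvPolynomial.pderiv i f)) =
    Lg n (V ((List.take i (List.ofFn fun l => w l ^ t l)).prod * w i *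
      ((List.take i (List.ofFn fun l => w l ^ t l)).prod)⁻¹)) *
      V (List.ofFn fun l => w l ^ t l).prod

/-! ## Section 4: derivations -/

/-- Row DER. If the logarithms of all conjugates of the `w i` are in a space of dimension `< N`, there
is a derivation `∑ i, c i ∂/∂X i`, not zero, which kills the entries of `psi`.
Proof. `Ψ = psi n (V ∘ w)`, `M i = (Ψ.map (pderiv i)) * Ψ.adjugate`. At a natural point `t`:
`Ψ(t) = V g_t` (row PSE; `i! ≠ 0` in characteristic zero), of determinant `1` (the `V (w l)` are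
unipotent: `det - 1` is nilpotent, or the characteristic polynomial of `V (w l) - 1` is `X ^ card m`),
so by row PSD `M i (t) = Lg n (V (g w_i g⁻¹)) ∈ L`. Choose a linear map
`θ : Matrix m m k → (Fin d → k)`, `d = finrank L`, injective on `L` (coordinates in a basis of `L`,
extended to the whole space by a complement, `Submodule.exists_isCompl` or
`LinearMap.exists_leftInverse_of_injective`). Put `Θ i l = ∑ a b, C (θ (single a b 1) l) * M i a b`.
The `N` vectors `Θ i` of `Fin d → k[X]` are linearly dependent over the domain `k[X]`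
(`StrongRankCondition`: e.g. `LinearIndependent.fintype_card_le_finrank`), which gives `c ≠ 0`
with `∑ i, c i * Θ i l = 0`. At natural points `∑ i, c i(t) M i (t)` is in `L` and is mapped to `0` by
`θ`, so it is `0`; so `∑ i, c i * M i a b = 0` (`MvPolynomial.funext_set` for the infinite set of
natural numbers). Multiply by `Ψ` on the right: `det Ψ * ∑ i, c i * pderiv i (Ψ a b) = 0` and
`det Ψ ≠ 0`. Rows PSE, PSD may be taken as hypotheses. -/
def DER_stmt : Prop := ∀ {k m G : Type} [Field k] [CharZero k] [Fintype m] [DecidableEq m]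
  [Group G] (V : G →* Matrix m m k) (n N : ℕ) (w : Fin N → G), (∀ l, (V (w l) - 1) ^ n = 0) →
  ∀ L : Submodule k (Matrix m m k), Module.finrank k L < N →
  (∀ i g, Lg n (V (g * w i * g⁻¹)) ∈ L) →
  ∃ c : Fin N → MvPolynomial (Fin N) k, c ≠ 0 ∧
    ∀ a b, ∑ i, c i * MvPolynomial.pderiv i (psi n (fun l => V (w l)) a b) = 0

/-- Row JAC. The Jacobian criterion at the point `0`.
Proof. The `M × N` matrix `(∂_i u_a)(0)` has independent columns, so rank `N`, so `N` of its rows are
independent: `σ : Fin N → Fin M` injective such that the square matrix `(∂_i u_(σ a))(0)` is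
invertible; so `det (∂_i u_(σ a))` is a nonzero polynomial. Claim: `v = u ∘ σ` is algebraically
independent. Otherwise take `R ≠ 0` in `MvPolynomial (Fin N) k` of minimal total degree with
`aeval v R = 0`. Chain rule: `0 = pderiv i (aeval v R) = ∑ a, aeval v (pderiv a R) * pderiv i (v a)`
for all `i`, so `aeval v (pderiv a R) = 0` for all `a` (multiply by the adjugate, domain), the total
degree of `pderiv a R` is smaller, so `pderiv a R = 0` for all `a` and `R` is constant
(characteristic zero), so `R = 0`. By `AlgebraicIndependent.isTranscendenceBasis_of_trdeg_le_of_finite`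
(`MvPolynomial.trdeg_of_isDomain`) `v` is a transcendence basis, so `X i` is algebraic over
`adjoin (range v) ≤ adjoin (range u)`. -/
def JAC_stmt : Prop := ∀ {k : Type} [Field k] [CharZero k] (N M : ℕ)
  (u : Fin M → MvPolynomial (Fin N) k),
  LinearIndependent k (fun i : Fin N => fun a : Fin M =>
    MvPolynomial.eval (fun _ => (0 : k)) (MvPolynomial.pderiv i (u a))) →
  ∀ i, IsAlgebraic (Algebra.adjoin k (Set.range u)) (MvPolynomial.X i : MvPolynomial (Fin N) k)

/-! ## Section 5: the Lie algebra -/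

/-- Row LCJ. `LL` is stable under conjugation.
Proof. `pel` is stable under conjugation by `g : J → Γ`: `W j (g w g⁻¹) ^ p = W j g * W j w ^ p *
W j g⁻¹`. `Lg n (B A B⁻¹) = B Lg n A B⁻¹` for `B = star π W g`. `Submodule.span_induction`. -/
def LCJ_stmt : Prop := ∀ {J : Type} {κ : J → Type} [∀ j, Field (κ j)] (p : J → ℕ) {k : Type}
  [Field k] (π : (∀ j, κ j) →+* k) {Γ m : Type} [Group Γ] [Fintype m] [DecidableEq m]
  (W : ∀ j, Γ →* Matrix m m (κ j)) (ρ : ∀ j, Γ →* Matrix (Fin 2) (Fin 2) (κ j)) (g : J → Γ),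
  ∀ X ∈ LL π p W ρ, (star π W g * X.1 * star π W g⁻¹, star π ρ g * X.2 * star π ρ g⁻¹) ∈
    LL π p W ρ

/-- Row INJ. The first projection is injective on `LL`.
Proof. Let `X ∈ LL` with `X.1 = 0`, `X.2 ≠ 0`. `N = finrank LL`; choose `w l ∈ pel` (`l < N`) such that
the pairs `X_l` of logarithms form a basis of `LL` (a generating set contains a basis). `L` = the
image of `LL` under the first projection has dimension `< N`. `n = card m`. Row DER for
`V = star π W` and `G = J → Γ` (row NIL; conjugates of `w l` are in `pel`) gives `c ≠ 0`. Let `D` be the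
derivation `∑ i, c i • pderiv i` of `k[X]`; it kills the entries of `psi n (star π W ∘ w)`, so the
algebra generated by them, and `D (X i) = c i ≠ 0` for some `i`: by
`Pool.Agent.RG.TRC.TRC` (file `Pool/Agent/helper92/RG/TRC.lean`) `X i` is transcendental over this
algebra. By row PSD at `t = 0` the derivative `∂_l` at `0` of `psi n (star π W ∘ w)` is
`Lg n (star π W (w l))`, and of `psi 2 (star π ρ ∘ w)` it is `Lg 2 (star π ρ (w l))`; these are
independent, so by row JAC the variables are algebraic over the algebra generated by the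
entries of both. Apply row CNT with `y` = the entries of `psi n (mt W ∘ w)` and `u` = the entries of
`psi n (mt W ∘ w)` and of `psi 2 (mt ρ ∘ w)` (index sets `m × m` and `(m × m) ⊕ (Fin 2 × Fin 2)`,
`Fintype.equivFin`; images under `π`: row VPS). The values of `y` are entries of `W j g`. Fibres:
let `g = (List.ofFn fun l => w l j ^ t l).prod`, `g'` the same for `t'`, and `W j g' = W j g`. Then
`h = g⁻¹ g'` satisfies `W j h = 1`, `det (ρ j h) = 1` (row NIL), so `ρ j h ∈ s` and
`ρ j g' = ρ j g * ρ j h`: the values of `u` at `t'` are given by `W j g` and `ρ j g * B`, `B ∈ s`.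
Rows NIL, VPS, PSD, DER, JAC, CNT may be taken as hypotheses. -/
def INJ_stmt : Prop := ∀ {J : Type} (𝒰 : Ultrafilter J) {κ : J → Type} [∀ j, Field (κ j)]
  (p : J → ℕ) {k : Type} [Field k] [CharZero k] (π : (∀ j, κ j) →+* k), IsUP 𝒰 p π →
  ∀ {Γ m : Type} [Group Γ] [Fintype m] [DecidableEq m] (W : ∀ j, Γ →* Matrix m m (κ j))
    (ρ : ∀ j, Γ →* Matrix (Fin 2) (Fin 2) (κ j)),
  (∀ j g a b, ∃ s : ℕ, W j g a b = (s : κ j)) →
  (∀ c : ℕ, ∀ᶠ j in (𝒰 : Filter J), ∃ s : Finset (Matrix (Fin 2) (Fin 2) (κ j)),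
    c * s.card ≤ p j ∧ ∀ h, W j h = 1 → (ρ j h).det = 1 → ρ j h ∈ s) →
  ∀ X ∈ LL π p W ρ, X.1 = 0 → X.2 = 0

/-- Row SPN. The second projection of `LL` is the space of matrices of trace zero.
Proof. (→) `Lg 2 A = A - 1` for `A = star π ρ w`, `(A - 1) ^ 2 = 0` (row NIL), so the trace of `A - 1` is
`0`. (←) For every `j` take `g_j` with `orderOf (ρ j g_j) = p j`; `W j g_j` has finite order
`p ^ a m'`, `m'` prime to `p` (finite range); `w_j = g_j ^ m'`: `ρ j (w_j)` has order `p j`, and
`W j (w_j) ^ (p ^ a) = 1`, so `(W j w_j - 1) ^ card m = 0` and, if `card m ≤ p j`, `W j (w_j) ^ p j = 1`;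
for the other `j` take `w_j = 1` instead. So `w ∈ pel`, and `ρ j (w_j) ≠ 1` for almost all `j`. For
these `j` there is `h_j` such that `ρ j (h_j w_j h_j⁻¹)` does not commute with `ρ j (w_j)`: otherwise
all conjugates have the same eigenline `ker (ρ j (w_j) - 1)`, which is then stable under `ρ j`,
contradiction to `Irred`. Put `X = star π ρ w - 1`, `Y = star π ρ (h w h⁻¹) - 1`: `X ^ 2 = Y ^ 2 = 0`,
`X Y ≠ Y X` (`IsUP.zero`). The set `{Z | ∃ X ∈ LL, X.2 = Z}` is a subspace stable under conjugation by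
`star π ρ w = 1 + X` (row LCJ) and contains `X`, `Y`, so
`(1 + X) Y (1 - X) = Y + (X Y - Y X) - X Y X`; `X Y X = tr (X Y) X` (both of rank one), so it contains
`X Y - Y X`. `X`, `Y`, `X Y - Y X` are linearly independent (conjugate to multiples of the
elementary matrices `e_01`, `e_10` and of `diag (1, -1)`), so they span the matrices of trace zero.
Rows NIL, LCJ may be taken as hypotheses. -/
def SPN_stmt : Prop := ∀ {J : Type} (𝒰 : Ultrafilter J) {κ : J → Type} [∀ j, Field (κ j)]
  (p : J → ℕ) {k : Type} [Field k] [CharZero k] (π : (∀ j, κ j) →+* k), IsUP 𝒰 p π →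
  ∀ {Γ m : Type} [Group Γ] [Fintype m] [DecidableEq m] (W : ∀ j, Γ →* Matrix m m (κ j))
    (ρ : ∀ j, Γ →* Matrix (Fin 2) (Fin 2) (κ j)), (∀ j, (Set.range (W j)).Finite) →
  (∀ j, Irred fun g => ρ j g) → (∀ j, ∃ g, orderOf (ρ j g) = p j) →
  ∀ Z, (∃ X ∈ LL π p W ρ, X.2 = Z) ↔ Z.trace = 0

/-- Row ADS. From the Lie algebra to a subquotient of `V ⊗ V^∨`.
Proof. The space of `tens V 1 1` is the space of functions `x` on `(Fin 1 → m) × (Fin 1 → m)`; to `x`
corresponds the matrix `mx x = (x (fun _ => a, fun _ => b))_ab`, and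
`mx (tens V 1 1 g *ᵥ x) = V g * mx x * V g⁻¹`. `Q = {x | ∃ X ∈ L, X.1 = mx x}` (a subspace), stable.
`π x = X.2`, well defined and linear by injectivity (`X.1 = X'.1` implies `X.2 = X'.2`), e.g. via
`Classical.choose`. Its range is the set of matrices of trace zero; equivariance from uniqueness. -/
def ADS_stmt : Prop := ∀ {F Γ m : Type} [Field F] [Group Γ] [Fintype m] [DecidableEq m]
  (V : Γ →* Matrix m m F) (ρ : Γ →* Matrix (Fin 2) (Fin 2) F)
  (L : Submodule F (Matrix m m F × Matrix (Fin 2) (Fin 2) F)),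
  (∀ g, ∀ X ∈ L, (V g * X.1 * V g⁻¹, ρ g * X.2 * ρ g⁻¹) ∈ L) →
  (∀ X ∈ L, X.1 = 0 → X.2 = 0) → (∀ Z, (∃ X ∈ L, X.2 = Z) ↔ Z.trace = 0) →
  AdSubquotient ⊤ ρ (tens V 1 1)

/-! ## Section 6: from the residual representations to a relation -/

/-- Row RDC. The embedding of `E` in the ultraproduct.
Proof. `ι₀ = π ∘ (fun a j => φ j a) : 𝓞 E →+* k` is injective: a nonzero ideal of `𝓞 E` contains a
nonzero natural number (`Ideal.absNorm_mem`), and `k` has characteristic zero. `ι` = its extension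
to the fraction field (`IsFractionRing.lift`). Let `x = a₀ / m₀`, `m₀ ≠ 0` natural (e.g.
`IsIntegral.exists_multiple_integral_of_isLocalization`, or `exists_integral_multiple` over `ℤ`). If
`Red (φ j) x (y j)` with `a`, `m`, then `m₀ a = m a₀` in `𝓞 E`, so `m₀ m y_j = m₀ φ_j(a) = m φ_j(a₀)` and
`m₀ y_j = φ_j(a₀)` (`m ≠ 0` in `κ j`). Apply `π`: `m₀ π y = ι₀ a₀ = m₀ ι x`. -/
def RDC_stmt : Prop := ∀ {J : Type} (𝒰 : Ultrafilter J) {κ : J → Type} [∀ j, Field (κ j)]
  (p : J → ℕ) {k : Type} [Field k] [CharZero k] (π : (∀ j, κ j) →+* k), IsUP 𝒰 p π →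
  ∀ {E : Type} [Field E] [NumberField E] (φ : ∀ j, 𝓞 E →+* κ j),
  ∃ ι : E →+* k, ∀ (x : E) (y : ∀ j, κ j), (∀ᶠ j in (𝒰 : Filter J), Red (φ j) x (y j)) →
    ι x = π y

/-- Row KCD. The number of matrices of determinant one in `ρ (ker V)`.
Proof. `H = kerV V`, `K = adKer ρ`, the index of `H ∩ K` in `H` is `d = adDegree V ρ ≠ 0`, so `H` is the
union of `d` cosets of `H ∩ K`. In each coset containing an element `h` with `det (ρ h) = 1`
choose one; any other such element is `h h'` with `ρ h' = c • 1`, `c ^ 2 = 1`, so `ρ (h h') = ± ρ h`.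
`s` = the set of the `± ρ h` (at most two for each coset). -/
def KCD_stmt : Prop := ∀ {Γ F F' : Type} [Group Γ] [Field F] [CommRing F'] {r : ℕ} {n : Fin r → ℕ}
  (V : (i : Fin r) → Γ →* Matrix (Fin (n i)) (Fin (n i)) F')
  (ρ : Γ →* Matrix (Fin 2) (Fin 2) F), adDegree V ρ ≠ 0 →
  ∃ s : Finset (Matrix (Fin 2) (Fin 2) F), s.card ≤ 2 * adDegree V ρ ∧
    ∀ h, (∀ i, V i h = 1) → (ρ h).det = 1 → ρ h ∈ s

/-- Row FWD. The assembly: if the degrees are `o(p j)` for infinitely many `j`, there is an algebraic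
relation.
Proof. `d j = adDegree (V j) (ρ j)`, not zero (`(ρ j).ker ≤ adKer (ρ j)` is open, so of finite index in
the compact group). Row ULT gives `𝒰`, row UPF gives `k`, `π`. `W j` = `dirSum` of the `V j i` with
coefficients in `κ j` (via `ZMod.castHom`; an element of `ZMod (p j)` is the image of a natural
number, `ZMod.natCast_zmod_val`), of finite range (open kernel). Row KCD and the property of `𝒰` for
`2 c` give the hypothesis of row INJ. Rows INJ, SPN, LCJ, ADS for `G = J → Γ` give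
`AdSubquotient ⊤ (star π ρ) (tens (star π W) 1 1)`; restrict to the diagonal `Γ → (J → Γ)`. The
restriction of `star π W` to the diagonal is `dirSum` of the representations
`V' i g = star π (fun j => bc (V j i)) (fun _ => g)`. Row RDC gives `ι : E →+* k`. For `v` outside `T₀`
and `s ∈ frob v`: `v ∉ T j` for almost all `j`, so the coefficients of the characteristic
polynomials of `V' i s` (which are `π` of those of `V j i s`: `Matrix.charpoly_map`) are `ι` of those
of `P i v`; same for `ρ`: `Compatible frob ι (P i) (V' i)`, `Compatible frob ι Q ρ'`. Now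
`Pool.Agent.RG.rel_of_ad` with `U = ⊤`, `a = b = 1` and `nonNeglOpen_of_dense`. Rows ULT, UPF, KCD, INJ,
SPN, LCJ, ADS, RDC, NIL may be taken as hypotheses. -/
def FWD_stmt : Prop := ∀ {Γ : Type} {Place : Type u} {E : Type} [Group Γ] [TopologicalSpace Γ]
  [IsTopologicalGroup Γ] [CompactSpace Γ] [MeasurableSpace Γ] [BorelSpace Γ]
  (μ : Measure Γ) [μ.IsHaarMeasure] (frob : Place → Set Γ), DenseIn frob ⊤ Set.univ →
  ∀ [Field E] [NumberField E] {r : ℕ} {n : Fin r → ℕ} (P : Fin r → Place → E[X])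
  (Q : Place → E[X]) (i₀ : Fin r), (∀ v, P i₀ v = X - C ((Q v).coeff 0)) →
  ∀ {J : Type} (p : J → ℕ) (κ : J → Type) [∀ j, Field (κ j)] [∀ j, IsAlgClosed (κ j)]
  [∀ j, CharP (κ j) (p j)] (φ : ∀ j, 𝓞 E →+* κ j)
  (V : ∀ j, (i : Fin r) → Γ →* Matrix (Fin (n i)) (Fin (n i)) (ZMod (p j)))
  (ρ : ∀ j, Γ →* Matrix (Fin 2) (Fin 2) (κ j)), IsResidual frob P Q p κ φ V ρ →
  (∀ c : ℕ, {j | c * adDegree (V j) (ρ j) < p j}.Infinite) →
  ∃ (S : Set Place) (Φ : (MvPolynomial (Fin r × ℕ) E)[X]), NonNegl μ frob S ∧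
    IsRelation P Q S Φ

/-! ## Section 7: the converse -/

/-- Row EXT. Reduction of algebraic elements: the place `φ` of `E` extends to the algebraic elements
of `F`.
Proof. Let `O = ι (𝓞 E) ⊆ F` (isomorphic to `𝓞 E`), `F₀` the algebraic closure of `ι E` in `F`,
`𝔭 = ker φ`. The localisation of `O` at `𝔭` is a local subring of `F₀`, dominated by a valuation
subring `B₀` of `F₀` (Mathlib: `LocalSubring.exists_le_valuationSubring` or
`LocalSubring.exists_valuationRing_of_isMax`-like statements). Its residue field is algebraic over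
`𝓞 E / 𝔭` (`F₀` is algebraic over `ι E`: the reduction of `b ∈ B₀` satisfies the reduction of a
polynomial equation over `O` with one coefficient a unit, after dividing by a coefficient of
largest value), so it maps to the algebraically closed field `κ` over `𝓞 E / 𝔭`
(`IsAlgClosed.lift`). Alternatively: `A` = the integral closure of `O` in `F`, a prime of `A` over `𝔭`
(`Ideal.exists_ideal_over_prime_of_isIntegral`), `A / 𝔓` is integral over `𝓞 E / 𝔭`, fraction fields,
`IsAlgClosed.lift` gives `Φ₀ : A → κ` with `Φ₀ ∘ ι = φ`; `B = {x | ∃ s ∈ A, Φ₀ s ≠ 0, s x ∈ A}` and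
`Φ x = Φ₀ (s x) / Φ₀ s` (well defined; a subring). First property: `x` with `m x = a`: `s = m`.
Second property: the coefficients `P.coeff i = a_i / m` (common `m`, not zero in `κ`), `γ` a root of the
monic polynomial: `m γ` is integral over `O`, so `γ ∈ B`; apply `Φ` to the equation
`∑ ι (P.coeff i) γ ^ i = 0`: `∑ P'.coeff i * Φ(γ) ^ i = 0` (`Φ (ι (P.coeff i)) = P'.coeff i` by the first
property; for `i > natDegree P` both are zero). -/
def EXT_stmt : Prop := ∀ {E : Type} [Field E] [NumberField E] {F : Type v} [Field F]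
  (ι : E →+* F) {κ : Type} [Field κ] [IsAlgClosed κ] (φ : 𝓞 E →+* κ),
  ∃ (B : Subring F) (Φ : B →+* κ),
    (∀ (x : E) (y : κ), Red φ x y → ∃ h : ι x ∈ B, Φ ⟨ι x, h⟩ = y) ∧
    ∀ (P : E[X]) (P' : κ[X]), P.Monic → (∀ i, Red φ (P.coeff i) (P'.coeff i)) → ∀ γ : F,
      (P.map ι).IsRoot γ → ∃ h : γ ∈ B, P'.IsRoot (Φ ⟨γ, h⟩)

/-- Row RMU. `Red` is compatible with sums and products.
Proof. `(a, m)`, `(a', m')` give `(m' a + m a', m m')` and `(a a', m m')`. For the polynomials:
`Polynomial.coeff_mul`, `Finset.induction_on`; `Red φ 0 0`, `Red φ 1 1`. -/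
def RMU_stmt : Prop := ∀ {E κ : Type} [Field E] [Field κ] (φ : 𝓞 E →+* κ),
  (∀ x x' y y', Red φ x y → Red φ x' y' → Red φ (x + x') (y + y') ∧ Red φ (x * x') (y * y')) ∧
  ∀ (r : ℕ) (P : Fin r → E[X]) (P' : Fin r → κ[X]), (∀ i l, Red φ ((P i).coeff l) ((P' i).coeff l)) →
    ∀ l, Red φ ((∏ i, P i).coeff l) ((∏ i, P' i).coeff l)

/-- Row BW3. If `ad ρ` is a subquotient of a tensor construction of `V` on `U`, then for Frobenius
elements in `U` the eigenvalues of the reductions satisfy the corresponding relation.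
Proof. `Pool.Agent.RG.ad_roots` gives `α`, `β`, `γ`, `ε` in `F`; `α`, `β` are the roots of
`(ρ s).charpoly = Q.map ι` (`charpoly = X ^ 2 - trace X + det`), `Q` and `P` are monic. Row EXT: all of
them are in `B`; apply `Φ`: `Φ α + Φ β = Φ (ι (- Q.coeff 1)) = -(σ s).charpoly.coeff 1 = trace (σ s)`,
same for the product; `Φ γ`, `Φ ε` are roots of `(W s).charpoly`; the relation
`α ∏ ε = β ∏ γ` in `B` is mapped to the relation in `κ`. Row EXT may be taken as hypothesis. -/
def BW3_stmt : Prop := ∀ {Γ E : Type} [Group Γ] [Field E] [NumberField E] {F : Type v} [Field F]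
  [IsAlgClosed F] (ι : E →+* F) {κ : Type} [Field κ] [IsAlgClosed κ] (φ : 𝓞 E →+* κ) {m : Type}
  [Fintype m] [DecidableEq m] (V : Γ →* Matrix m m F) (ρ : Γ →* Matrix (Fin 2) (Fin 2) F)
  (W : Γ →* Matrix m m κ) (σ : Γ →* Matrix (Fin 2) (Fin 2) κ) (P Q : E[X]) (U : Subgroup Γ)
  (a b : ℕ), AdSubquotient U ρ (tens V a b) → ∀ s ∈ U, (V s).charpoly = P.map ι →
  (ρ s).charpoly = Q.map ι → (∀ l, Red φ (P.coeff l) ((W s).charpoly.coeff l)) →
  (∀ l, Red φ (Q.coeff l) ((σ s).charpoly.coeff l)) →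
  ∃ (α β : κ) (γ : Fin a → κ) (ε : Fin b → κ), α + β = (σ s).trace ∧ α * β = (σ s).det ∧
    (∀ l, (W s).charpoly.IsRoot (γ l)) ∧ (∀ l, (W s).charpoly.IsRoot (ε l)) ∧
    α * ∏ l, ε l = β * ∏ l, γ l

/-- Row TWO. A normal subgroup acting with double eigenvalues acts by scalars.
Proof. Let `h ∈ H` with `σ h` not scalar. If for all `g ∈ Γ` the eigenline of `σ (g h g⁻¹)` is the
eigenline `ℓ` of `σ h` (a nonscalar matrix with a double eigenvalue has exactly one eigenline), then
`σ g ℓ = ℓ` for all `g`, contradiction to `Irred`. So there is `h' = g h g⁻¹ ∈ H` with a different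
eigenline; in a basis of the two eigenvectors `σ h = c (1 x; 0 1)`, `σ h' = c' (1 0; y 1)`,
`x y ≠ 0`. `h h' ∈ H`: `(c c')^2 (2 + x y)^2 = 4 (c c')^2`, so `x y = -4`. `h h' h' ∈ H`:
`(2 + 2 x y)^2 = 4`, so `2 x y = -4` (`2 x y ≠ 0`). So `-8 = -4`, `4 = 0`, contradiction to `2 ≠ 0`.
(Without bases: `A = σ h / c = 1 + N`, `B = 1 + N'`, `N^2 = N'^2 = 0`, `N N' ≠ N' N`, so
`tr (N N') ≠ 0`; `tr (A B) = 2 + tr (N N')`, `tr (A B^2) = 2 + 2 tr (N N')`.) -/
def TWO_stmt : Prop := ∀ {Γ κ : Type} [Group Γ] [Field κ] [IsAlgClosed κ], (2 : κ) ≠ 0 →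
  ∀ σ : Γ →* Matrix (Fin 2) (Fin 2) κ, Irred (fun g => σ g) → ∀ H : Subgroup Γ, H.Normal →
  (∀ h ∈ H, (σ h).trace ^ 2 = 4 * (σ h).det) → H ≤ adKer σ

/-- Row BWD. The assembly of the converse: the degrees are bounded.
Proof. Let `T₀`, `T` be as in `IsResidual.comp`, `T_V i`, `T_ρ` the exceptional sets of `Compatible`.
`U₀` = the normal core of `U`, of finite index and open. Let `j` with `p j ≠ 2` and
`u ∈ kerV (V' j) ∩ U₀`. The set of `s ∈ U₀` with `V' j i s = V' j i u` for all `i` and `ρ' j s = ρ' j u` is open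
(a coset of an open subgroup) and contains `u ∈ U₀ ≤ ⊤`, so by `DenseIn frob ⊤ univ` there are
`v` outside the finite set `T j ∪ ⋃ T_V i ∪ T_ρ` and `s ∈ frob v` in it. Row BW3 for `V = dirSum V`,
`P = ∏ P i v`, `W = dirSum` of the `V' j i` with coefficients in `κ j` (`charpoly_dirSum'`, row RMU): since
`W s = 1`, all `γ l = ε l = 1`, so `α = β` and `(ρ' j u).trace ^ 2 = 4 (ρ' j u).det`. Row TWO for
`H = kerV (V' j) ⊓ U₀` (normal): `H ≤ adKer (ρ' j)`. So
`adDegree = (adKer (ρ' j)).relIndex (kerV (V' j)) ≤ U₀.relIndex (kerV (V' j)) ≤ U₀.index`. There are only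
finitely many `j` with `p j ≤ 2`; `B` = the maximum of `U₀.index` and of these `adDegree`. Rows BW3,
RMU, TWO may be taken as hypotheses. -/
def BWD_stmt : Prop := ∀ {Γ : Type} {Place : Type u} {E : Type} [Group Γ] [TopologicalSpace Γ]
  [IsTopologicalGroup Γ] [CompactSpace Γ] (frob : Place → Set Γ), DenseIn frob ⊤ Set.univ →
  ∀ [Field E] [NumberField E] {r : ℕ} {n : Fin r → ℕ} (P : Fin r → Place → E[X])
  (Q : Place → E[X]) {F : Type v} [Field F] [IsAlgClosed F] (ι : E →+* F)
  (V : (i : Fin r) → Γ →* Matrix (Fin (n i)) (Fin (n i)) F)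
  (ρ : Γ →* Matrix (Fin 2) (Fin 2) F), (∀ i, Compatible frob ι (P i) (V i)) →
  Compatible frob ι Q ρ → ∀ (U : Subgroup Γ) (a b : ℕ), IsOpen (U : Set Γ) →
  AdSubquotient U ρ (tens (dirSum V) a b) →
  ∀ {J : Type} (p : J → ℕ) (κ : J → Type) [∀ j, Field (κ j)] [∀ j, IsAlgClosed (κ j)]
  [∀ j, CharP (κ j) (p j)] (φ : ∀ j, 𝓞 E →+* κ j)
  (V' : ∀ j, (i : Fin r) → Γ →* Matrix (Fin (n i)) (Fin (n i)) (ZMod (p j)))
  (ρ' : ∀ j, Γ →* Matrix (Fin 2) (Fin 2) (κ j)), IsResidual frob P Q p κ φ V' ρ' →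
  ∃ B : ℕ, ∀ j, adDegree (V' j) (ρ' j) ≤ B

end Pool.Agent.HZ
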