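import Mathlib
import Pool.Agent.helper91.HZ.Spec

/-!
# Project HZ, row CNT
-/

namespace Pool.Agent.HZ

open Matrix Polynomial Pool.Agent.GO Pool.Agent.AR NumberField

theorem CNT_mul {J : Type} {κ : J → Type} [∀ j, Field (κ j)] {N : ℕ}
    (f g : MvPolynomial (Fin N) (∀ j, κ j)) (j : J) (t : Fin N → ℕ) :
    vl (f * g) j t = vl f j t * vl g j t := by
  unfold vl
  rw [map_mul, map_mul]

theorem CNT_prod {J : Type} {κ : J → Type} [∀ j, Field (κ j)] {N : ℕ} {ι : Type} (s : Finset ι)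
    (f : ι → MvPolynomial (Fin N) (∀ j, κ j)) (j : J) (t : Fin N → ℕ) :
    vl (∏ i ∈ s, f i) j t = ∏ i ∈ s, vl (f i) j t := by
  unfold vl
  rw [map_prod, map_prod]

theorem CNT_X {J : Type} {κ : J → Type} [∀ j, Field (κ j)] {N : ℕ} (i : Fin N) (j : J)
    (t : Fin N → ℕ) : vl (MvPolynomial.X i : MvPolynomial (Fin N) (∀ j, κ j)) j t = (t i : κ j) := by
  unfold vl
  rw [MvPolynomial.map_X, MvPolynomial.eval_X]

/-- the arithmetic at the end -/
theorem CNT_arith (p b N C₁ C₂ D S s : ℕ) (hbN : b < N)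
    (hp : (2 * C₁ * C₂ + 1) * D < p) (h1 : p ^ N ≤ S + s) (h2 : s * p ≤ D * p ^ N)
    (h3 : S ≤ C₁ * (p / (2 * C₁ * C₂ + 1)) * (p ^ b * C₂)) : False := by
  set c := 2 * C₁ * C₂ + 1 with hc
  have hp0 : 0 < p := by omega
  have hpN : 0 < p ^ N := pow_pos hp0 N
  have h4 : c * S ≤ C₁ * C₂ * p ^ N := by
    have h5 : c * (p / c) ≤ p := Nat.mul_div_le p c
    calc c * S ≤ c * (C₁ * (p / c) * (p ^ b * C₂)) := Nat.mul_le_mul_left c h3
      _ = (c * (p / c)) * (C₁ * C₂ * p ^ b) := by ring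
      _ ≤ p * (C₁ * C₂ * p ^ b) := Nat.mul_le_mul_right _ h5
      _ = C₁ * C₂ * p ^ (b + 1) := by ring
      _ ≤ C₁ * C₂ * p ^ N := Nat.mul_le_mul_left _ (Nat.pow_le_pow_right hp0 hbN)
  have h6 : p ^ N * (c * p) ≤ p ^ N * (C₁ * C₂ * p + c * D) := by
    calc p ^ N * (c * p) = c * p * p ^ N := by ring
      _ ≤ c * p * (S + s) := Nat.mul_le_mul_left _ h1
      _ = (c * S) * p + c * (s * p) := by ring
      _ ≤ (C₁ * C₂ * p ^ N) * p + c * (D * p ^ N) :=
          Nat.add_le_add (Nat.mul_le_mul_right _ h4) (Nat.mul_le_mul_left _ h2)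
      _ = p ^ N * (C₁ * C₂ * p + c * D) := by ring
  have h7 : c * p ≤ C₁ * C₂ * p + c * D := Nat.le_of_mul_le_mul_left h6 hpN
  have h8 : c * p = 2 * (C₁ * C₂ * p) + p := by rw [hc]; ring
  omega

theorem CNT (h1 : SZ_stmt) (h2 : BTO_stmt) (h3 : TRB_stmt) (h4 : PIG_stmt) : CNT_stmt := by
  intro J 𝒰 κ _ p k _ π hup N m m' y u hu hi hprime hfib
  obtain ⟨i₀, hi₀⟩ := hi
  classical
  obtain ⟨b, σ, hbN, hσ⟩ := h3 N m (fun a => MvPolynomial.map π (y a)) i₀ hi₀
  have hA := fun i : Fin N => h2 𝒰 p π hup N m' u (MvPolynomial.X i)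
    (by rw [MvPolynomial.map_X]; exact hu i)
  choose Δ₁ D₁ hΔ₁ hev₁ using hA
  have hB := fun a : Fin m => h2 𝒰 p π hup N b (fun l => y (σ l)) (y a) (hσ a)
  choose Δ₂ D₂ hΔ₂ hev₂ using hB
  let Δ : MvPolynomial (Fin N) (∀ j, κ j) := (∏ i, Δ₁ i) * ∏ a, Δ₂ a
  have hΔ : MvPolynomial.map π Δ ≠ 0 := by
    show MvPolynomial.map π ((∏ i, Δ₁ i) * ∏ a, Δ₂ a) ≠ 0
    rw [map_mul, map_prod, map_prod]
    exact mul_ne_zero (Finset.prod_ne_zero_iff.2 fun i _ => hΔ₁ i)
      (Finset.prod_ne_zero_iff.2 fun a _ => hΔ₂ a)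
  obtain ⟨D, hD⟩ := h1 𝒰 p π hup N Δ hΔ
  set C₁ := ∏ i, D₁ i with hC₁
  set C₂ := ∏ a, D₂ a with hC₂
  have hev := (((((Filter.eventually_all.2 hev₁).and (Filter.eventually_all.2 hev₂)).and hD).and
    hprime).and (hfib (2 * C₁ * C₂ + 1))).and (hup.lim ((2 * C₁ * C₂ + 1) * D))
  obtain ⟨j, ⟨⟨⟨⟨h1j, h2j⟩, hDj⟩, hprj⟩, hfj⟩, hpj⟩ := hev.exists
  have hchar : CharP (κ j) (p j) := hup.char j
  have hpp : 0 < p j := (hup.prime j).pos
  choose s₁ hs₁c hs₁ using h1j
  choose s₂ hs₂c hs₂ using h2j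
  obtain ⟨s, hsc, hs⟩ := hDj
  let S : Finset (Fin N → ℕ) := (box N (p j)).filter fun t => vl Δ j t ≠ 0
  have hbox : (box N (p j)).card = p j ^ N := by
    unfold box
    rw [Fintype.card_piFinset]
    simp
  have hcover : p j ^ N ≤ S.card + s.card := by
    rw [← hbox]
    refine le_trans (Finset.card_le_card ?_) (Finset.card_union_le S s)
    intro t ht
    rw [Finset.mem_union]
    by_cases h0 : vl Δ j t = 0
    · exact Or.inr (hs t ht h0)
    · exact Or.inl (Finset.mem_filter.2 ⟨ht, h0⟩)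
  have hΔ1 : ∀ t ∈ S, ∀ i, vl (Δ₁ i) j t ≠ 0 := by
    intro t ht i h0
    apply (Finset.mem_filter.1 ht).2
    show vl ((∏ i, Δ₁ i) * ∏ a, Δ₂ a) j t = 0
    rw [CNT_mul, CNT_prod, Finset.prod_eq_zero (Finset.mem_univ i) h0, zero_mul]
  have hΔ2 : ∀ t ∈ S, ∀ a, vl (Δ₂ a) j t ≠ 0 := by
    intro t ht a h0
    apply (Finset.mem_filter.1 ht).2
    show vl ((∏ i, Δ₁ i) * ∏ a, Δ₂ a) j t = 0
    rw [CNT_mul, CNT_prod _ Δ₂, Finset.prod_eq_zero (Finset.mem_univ a) h0, mul_zero]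
  have hinj : ∀ n n' : ℕ, n < p j → n' < p j → (n : κ j) = (n' : κ j) → n = n' := by
    intro n n' hn hn' h
    have h5 := (CharP.natCast_eq_natCast (κ j) (p j)).1 h
    rw [Nat.ModEq, Nat.mod_eq_of_lt hn, Nat.mod_eq_of_lt hn'] at h5
    exact h5
  refine CNT_arith (p j) b N C₁ C₂ D S.card s.card hbN hpj hcover hsc ?_
  refine h4 S (fun t a => vl (y a) j t) (fun t a => vl (u a) j t) _ _ _ ?_ ?_ ?_
  · -- the values of `y`
    let E : Finset (Fin b → κ j) :=
      (Fintype.piFinset fun _ : Fin b => Finset.range (p j)).image fun ν l => ((ν l : ℕ) : κ j)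
    have hE : E.card ≤ p j ^ b := by
      refine Finset.card_image_le.trans (le_of_eq ?_)
      rw [Fintype.card_piFinset]
      simp
    have hsub : S.image (fun t a => vl (y a) j t) ⊆
        E.biUnion fun η => Fintype.piFinset fun a => s₂ a η := by
      intro x hx
      obtain ⟨t, ht, rfl⟩ := Finset.mem_image.1 hx
      rw [Finset.mem_biUnion]
      refine ⟨fun l => vl (y (σ l)) j t, ?_, ?_⟩
      · have h5 : ∀ l, ∃ s : ℕ, s < p j ∧ vl (y (σ l)) j t = (s : κ j) := by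
          intro l
          obtain ⟨s, hs⟩ := hprj (σ l) t
          refine ⟨s % p j, Nat.mod_lt _ hpp, ?_⟩
          rw [hs]
          exact (CharP.natCast_eq_natCast (κ j) (p j)).2 (Nat.mod_modEq s (p j)).symm
        choose ν hν hν' using h5
        rw [Finset.mem_image]
        refine ⟨ν, ?_, ?_⟩
        · rw [Fintype.mem_piFinset]
          intro l
          exact Finset.mem_range.2 (hν l)
        · funext l
          exact (hν' l).symm
      · rw [Fintype.mem_piFinset]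
        intro a
        exact hs₂ a _ t (hΔ2 t ht a) (fun l => rfl)
    refine (Finset.card_le_card hsub).trans (Finset.card_biUnion_le.trans ?_)
    have h6 : ∀ η ∈ E, (Fintype.piFinset fun a => s₂ a η).card ≤ C₂ := by
      intro η _
      rw [Fintype.card_piFinset]
      exact Finset.prod_le_prod' fun a _ => hs₂c a η
    calc ∑ η ∈ E, (Fintype.piFinset fun a => s₂ a η).card ≤ ∑ _η ∈ E, C₂ := Finset.sum_le_sum h6
      _ = E.card * C₂ := by rw [Finset.sum_const, smul_eq_mul]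
      _ ≤ p j ^ b * C₂ := Nat.mul_le_mul_right _ hE
  · -- the fibres of `u`
    intro ν
    refine ⟨Fintype.piFinset fun i => (Finset.range (p j)).filter fun n => (n : κ j) ∈ s₁ i ν,
      ?_, ?_⟩
    · rw [Fintype.card_piFinset]
      refine Finset.prod_le_prod' fun i _ => le_trans ?_ (hs₁c i ν)
      refine Finset.card_le_card_of_injOn (fun n : ℕ => (n : κ j)) ?_ ?_
      · intro n hn
        exact (Finset.mem_filter.1 hn).2
      · intro n hn n' hn' h
        exact hinj n n' (Finset.mem_range.1 (Finset.mem_filter.1 hn).1)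
          (Finset.mem_range.1 (Finset.mem_filter.1 hn').1) h
    · intro t ht hgt
      rw [Fintype.mem_piFinset]
      intro i
      rw [Finset.mem_filter]
      refine ⟨?_, ?_⟩
      · exact (Fintype.mem_piFinset.1 (Finset.mem_filter.1 ht).1) i
      · have h5 := hs₁ i ν t (hΔ1 t ht i) (fun a => congrFun hgt a)
        rwa [CNT_X] at h5
  · -- the number of values of `u` for given `y`
    intro η
    by_cases hex : ∃ t ∈ S, (fun a => vl (y a) j t) = η
    · obtain ⟨t, ht, hη⟩ := hex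
      obtain ⟨s', hs'c, hs'⟩ := hfj t
      refine ⟨s', ?_, ?_⟩
      · rw [Nat.le_div_iff_mul_le (by omega)]
        rw [mul_comm]
        exact hs'c
      · intro t' _ h5
        apply hs' t'
        intro a
        have h6 := congrFun (h5.trans hη.symm) a
        exact h6
    · refine ⟨∅, by simp, ?_⟩
      intro t ht h5
      exact absurd ⟨t, ht, h5⟩ hex

end Pool.Agent.HZ
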