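import Mathlib
import Pool.Agent.helper91.HZ.Spec

/-!
# Project HZ (MP_2e0e07_nt, HorizontalCriterion): the final theorem from the two assemblies
-/

namespace Pool.Agent.HZ

open Matrix Polynomial Pool.Agent.GO Pool.Agent.AR Pool.Agent.RG MeasureTheory NumberField

universe u v

/-- bounded degrees are `o(p j)` for infinitely many `j` -/
theorem often_of_bounded {J : Type} [Infinite J] (p d : J → ℕ)
    (hp : ∀ m : ℕ, {j | p j ≤ m}.Finite) (h : ∃ B, ∀ j, d j ≤ B) (c : ℕ) :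
    {j | c * d j < p j}.Infinite := by
  obtain ⟨B, hB⟩ := h
  have h1 : {j | p j ≤ c * B}ᶜ.Infinite := (hp (c * B)).infinite_compl
  refine h1.mono ?_
  intro j hj
  have h2 : c * B < p j := not_le.1 hj
  exact lt_of_le_of_lt (Nat.mul_le_mul_left c (hB j)) h2

/-- The final theorem. -/
theorem final (hF : FWD_stmt.{u}) (hB : BWD_stmt.{u, v}) {Γ : Type} {Place : Type u} {E : Type}
    [Group Γ] [TopologicalSpace Γ] [IsTopologicalGroup Γ] [CompactSpace Γ] [MeasurableSpace Γ]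
    [BorelSpace Γ] (μ : Measure Γ) [μ.IsHaarMeasure] (frob : Place → Set Γ)
    (hd : DenseIn frob ⊤ Set.univ) [Field E] [NumberField E] {r : ℕ} {n : Fin r → ℕ}
    (P : Fin r → Place → E[X]) (Q : Place → E[X]) (i₀ : Fin r)
    (hdet : ∀ v, P i₀ v = X - C ((Q v).coeff 0)) {J : Type} [Infinite J] (p : J → ℕ)
    (κ : J → Type) [∀ j, Field (κ j)] [∀ j, IsAlgClosed (κ j)] [∀ j, CharP (κ j) (p j)]
    (φ : ∀ j, 𝓞 E →+* κ j)
    (V' : ∀ j, (i : Fin r) → Γ →* Matrix (Fin (n i)) (Fin (n i)) (ZMod (p j)))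
    (ρ' : ∀ j, Γ →* Matrix (Fin 2) (Fin 2) (κ j)) (hR' : IsResidual frob P Q p κ φ V' ρ')
    {F : Type v} [Field F] [IsAlgClosed F] [CharZero F] [TopologicalSpace F]
    [IsTopologicalRing F] [T2Space F] (ι : E →+* F)
    (V : (i : Fin r) → Γ →* Matrix (Fin (n i)) (Fin (n i)) F)
    (ρ : Γ →* Matrix (Fin 2) (Fin 2) F) (hR : IsRealisation frob P Q ι V ρ) :
    ((∃ (U : Subgroup Γ) (a b : ℕ), IsOpen (U : Set Γ) ∧
        AdSubquotient U ρ (tens (dirSum V) a b)) ↔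
      ∃ B : ℕ, ∀ j, adDegree (V' j) (ρ' j) ≤ B) ∧
    ((∃ B : ℕ, ∀ j, adDegree (V' j) (ρ' j) ≤ B) ↔
      ∀ c : ℕ, {j | c * adDegree (V' j) (ρ' j) < p j}.Infinite) ∧
    ∀ (q : Place → ℕ) (s : ℕ) (w : Fin r → ℕ) (O : Set Place),
      IsGoodSet μ frob n P Q q s w O →
      (Arises V ρ ↔ ∃ B : ℕ, ∀ j, adDegree (V' j) (ρ' j) ≤ B) := by
  have h12 : (∃ (U : Subgroup Γ) (a b : ℕ), IsOpen (U : Set Γ) ∧
      AdSubquotient U ρ (tens (dirSum V) a b)) → ∃ B : ℕ, ∀ j, adDegree (V' j) (ρ' j) ≤ B := by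
    rintro ⟨U, a, b, hU, h⟩
    exact hB frob hd P Q ι V ρ hR.compV hR.comp U a b hU h p κ φ V' ρ' hR'
  have h23 : (∃ B : ℕ, ∀ j, adDegree (V' j) (ρ' j) ≤ B) →
      ∀ c : ℕ, {j | c * adDegree (V' j) (ρ' j) < p j}.Infinite :=
    fun h c => often_of_bounded p _ hR'.tends h c
  have h3R : (∀ c : ℕ, {j | c * adDegree (V' j) (ρ' j) < p j}.Infinite) →
      ∃ (S : Set Place) (Φ : (MvPolynomial (Fin r × ℕ) E)[X]), NonNegl μ frob S ∧
        IsRelation P Q S Φ := fun h => hF μ frob hd P Q i₀ hdet p κ φ V' ρ' hR' h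
  have hR1 := ar1 μ frob hd P Q i₀ hdet ι V ρ hR
  refine ⟨⟨h12, fun h => hR1.1 (h3R (h23 h))⟩, ⟨h23, fun h => h12 (hR1.1 (h3R h))⟩, ?_⟩
  intro q s w O hO
  have hR2 := clause1 μ frob P Q q s w O hO ι V ρ hR
  exact ⟨fun h => h12 (hR1.1 (hR2.2 h)), fun h => hR2.1 (h3R (h23 h))⟩

end Pool.Agent.HZ
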