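import Mathlib
import Pool.Agent.helper91.HZ.Spec
import Pool.Agent.helper92.RG.TRC

/-!
# Project HZ, row INJ
-/

namespace Pool.Agent.HZ

open Matrix Polynomial Pool.Agent.GO Pool.Agent.AR Pool.Agent.RG NumberField

/-- conjugates of elements of `pel` are in `pel` -/
theorem INJ_conj {J : Type} {κ : J → Type} [∀ j, Field (κ j)] {Γ m : Type} [Group Γ] [Fintype m]
    [DecidableEq m] (p : J → ℕ) (W : ∀ j, Γ →* Matrix m m (κ j))
    (ρ : ∀ j, Γ →* Matrix (Fin 2) (Fin 2) (κ j)) (g w : J → Γ) (hw : w ∈ pel p W ρ) :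
    g * w * g⁻¹ ∈ pel p W ρ := by
  intro j
  obtain ⟨h1, h2⟩ := hw j
  have e : ∀ {d : Type} [Fintype d] [DecidableEq d] (T : Γ →* Matrix d d (κ j)),
      T (w j) ^ p j = 1 → T ((g * w * g⁻¹) j) ^ p j = 1 := by
    intro d _ _ T h
    rw [← map_pow] at h ⊢
    have : ((g * w * g⁻¹) j) ^ p j = g j * (w j) ^ p j * (g j)⁻¹ := by
      show (g j * w j * (g j)⁻¹) ^ p j = _
      rw [conj_pow]
    rw [this, map_mul, map_mul, h, mul_one, ← map_mul, mul_inv_cancel, map_one]
  exact ⟨e (W j) h1, e (ρ j) h2⟩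

theorem INJ_one {N : ℕ} {G : Type} [Group G] (w : Fin N → G) (i : ℕ) :
    (List.take i (List.ofFn fun l => w l ^ (0 : ℕ))).prod = 1 := by
  apply List.prod_eq_one
  intro x hx
  have h1 := List.mem_of_mem_take hx
  rw [List.mem_ofFn] at h1
  obtain ⟨l, hl⟩ := h1
  rw [← hl, pow_zero]

theorem INJ_one' {N : ℕ} {G : Type} [Group G] (w : Fin N → G) :
    (List.ofFn fun l => w l ^ (0 : ℕ)).prod = 1 := by
  apply List.prod_eq_one
  intro x hx
  rw [List.mem_ofFn] at hx
  obtain ⟨l, hl⟩ := hx
  rw [← hl, pow_zero]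

/-- the derivative at the origin -/
theorem INJ_der (h3 : PSD_stmt) {k m G : Type} [Field k] [CharZero k] [Fintype m] [DecidableEq m]
    [Group G] (V : G →* Matrix m m k) (n N : ℕ) (w : Fin N → G)
    (hw : ∀ l, (V (w l) - 1) ^ n = 0) (i : Fin N) (a b : m) :
    MvPolynomial.eval (fun _ => (0 : k)) (MvPolynomial.pderiv i (psi n (fun l => V (w l)) a b)) =
      Lg n (V (w i)) a b := by
  have h := congrFun (congrFun (h3 V n N w hw i (fun _ => 0)) a) b
  rw [INJ_one, INJ_one', map_one, mul_one, one_mul, inv_one, mul_one] at h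
  rw [← h, Matrix.map_apply]
  simp

/-- products of elements of order dividing `p` have determinant one -/
theorem INJ_det (h1 : NIL_stmt) {κ Γ : Type} [Field κ] [Group Γ] (p : ℕ) (hp : p.Prime)
    (hc : CharP κ p) (ρ : Γ →* Matrix (Fin 2) (Fin 2) κ) {N : ℕ} (w : Fin N → Γ)
    (hw : ∀ l, ρ (w l) ^ p = 1) (t : Fin N → ℕ) :
    (ρ (List.ofFn fun l => w l ^ t l).prod).det = 1 := by
  have h2 : ∀ l, (ρ (w l)).det = 1 := fun l => (h1.1 p 2 hp hc (by simp) _ (hw l)).2
  have h3 : (Matrix.detMonoidHom.comp ρ) (List.ofFn fun l => w l ^ t l).prod = 1 := by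
    rw [map_list_prod]
    apply List.prod_eq_one
    intro x hx
    rw [List.mem_map] at hx
    obtain ⟨y, hy, rfl⟩ := hx
    rw [List.mem_ofFn] at hy
    obtain ⟨l, rfl⟩ := hy
    show (ρ (w l ^ t l)).det = 1
    rw [map_pow, Matrix.det_pow, h2, one_pow]
  exact h3

theorem INJ (h1 : NIL_stmt) (h2 : VPS_stmt) (h3 : PSD_stmt) (h4 : DER_stmt) (h5 : JAC_stmt)
    (h6 : CNT_stmt) : INJ_stmt := by
  intro J 𝒰 κ _ p k _ _ π hup Γ m _ _ _ W ρ hW hK X hX hX1
  classical
  by_contra hX2
  set n := Fintype.card m with hn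
  let lg : (J → Γ) → Matrix m m k × Matrix (Fin 2) (Fin 2) k :=
    fun w => (Lg n (star π W w), Lg 2 (star π ρ w))
  have hLL : LL π p W ρ = Submodule.span k (lg '' pel p W ρ) := rfl
  -- a basis consisting of logarithms
  obtain ⟨b, hbs, hbspan, hbind⟩ := exists_linearIndependent k (lg '' pel p W ρ)
  have hbfin : b.Finite := hbind.setFinite
  have hbft : Fintype b := hbfin.fintype
  set N := Fintype.card b with hN
  let e : Fin N ≃ b := (Fintype.equivFin b).symm
  have hex : ∀ l : Fin N, ∃ w ∈ pel p W ρ, lg w = (e l).1 := fun l => hbs (e l).2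
  choose w hwp hwl using hex
  have hind : LinearIndependent k (fun l : Fin N => lg (w l)) := by
    have h := hbind.comp e e.injective
    have h' : (fun l : Fin N => lg (w l)) = (fun x : b => (x : Matrix m m k × _)) ∘ e := by
      funext l
      exact hwl l
    rw [h']
    exact h
  have hdim : Module.finrank k (LL π p W ρ) = N := by
    rw [hLL, ← hbspan]
    rw [finrank_span_set_eq_card hbind, Set.toFinset_card]
  -- the image under the first projection
  let L : Submodule k (Matrix m m k) := (LL π p W ρ).map (LinearMap.fst k _ _)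
  have hLdim : Module.finrank k L < N := by
    let f := (LinearMap.fst k (Matrix m m k) (Matrix (Fin 2) (Fin 2) k)).domRestrict (LL π p W ρ)
    have hr : LinearMap.range f = L := by
      ext x
      constructor
      · rintro ⟨y, rfl⟩
        exact ⟨y.1, y.2, rfl⟩
      · rintro ⟨y, hy, rfl⟩
        exact ⟨⟨y, hy⟩, rfl⟩
    have h := LinearMap.finrank_range_add_finrank_ker f
    rw [hr, hdim] at h
    have hk : 0 < Module.finrank k (LinearMap.ker f) := by
      rw [Nat.pos_iff_ne_zero, ← Nat.one_le_iff_ne_zero, Submodule.one_le_finrank_iff,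
        Submodule.ne_bot_iff]
      refine ⟨⟨X, hX⟩, hX1, ?_⟩
      intro h0
      apply hX2
      have h1 := congrArg (fun z : LL π p W ρ => z.1.2) h0
      exact h1
    omega
  have hnil : ∀ l, (star π W (w l) - 1) ^ n = 0 := fun l =>
    (h1.2 𝒰 p π hup W n (w l) hn.symm.le (fun j => (hwp l j).1)).1
  have hnilρ : ∀ l, (star π ρ (w l) - 1) ^ 2 = 0 := fun l =>
    (h1.2 𝒰 p π hup ρ 2 (w l) (by simp) (fun j => (hwp l j).2)).1
  obtain ⟨c, hc0, hc⟩ := h4 (star π W) n N w hnil L hLdim (by
    intro i g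
    have h := INJ_conj p W ρ g (w i) (hwp i)
    exact ⟨lg (g * w i * g⁻¹), Submodule.subset_span ⟨_, h, rfl⟩, rfl⟩)
  -- index sets
  let eY : Fin (Fintype.card (m × m)) ≃ m × m := (Fintype.equivFin _).symm
  let eU : Fin (Fintype.card ((m × m) ⊕ (Fin 2 × Fin 2))) ≃ (m × m) ⊕ (Fin 2 × Fin 2) :=
    (Fintype.equivFin _).symm
  let y : Fin (Fintype.card (m × m)) → MvPolynomial (Fin N) (∀ j, κ j) := fun a =>
    psi n (fun l => mt W (w l)) (eY a).1 (eY a).2
  let u : Fin (Fintype.card ((m × m) ⊕ (Fin 2 × Fin 2))) → MvPolynomial (Fin N) (∀ j, κ j) :=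
    fun a => Sum.elim (fun q => psi n (fun l => mt W (w l)) q.1 q.2)
      (fun q => psi 2 (fun l => mt ρ (w l)) q.1 q.2) (eU a)
  obtain ⟨hVW, hVW'⟩ := h2 𝒰 p π hup W n N w hn.symm.le (fun l j => (hwp l j).1)
  obtain ⟨hVρ, hVρ'⟩ := h2 𝒰 p π hup ρ 2 N w (by simp) (fun l j => (hwp l j).2)
  have hyπ : ∀ a, MvPolynomial.map π (y a) =
      psi n (fun l => star π W (w l)) (eY a).1 (eY a).2 := fun a => by
    rw [← hVW']
    rfl
  have huπ : ∀ a, MvPolynomial.map π (u a) =
      Sum.elim (fun q => psi n (fun l => star π W (w l)) q.1 q.2)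
      (fun q => psi 2 (fun l => star π ρ (w l)) q.1 q.2) (eU a) := fun a => by
    rw [← hVW', ← hVρ']
    show MvPolynomial.map π (Sum.elim (fun q => psi n (fun l => mt W (w l)) q.1 q.2)
      (fun q => psi 2 (fun l => mt ρ (w l)) q.1 q.2) (eU a)) = _
    rcases eU a with q | q <;> rfl
  refine h6 𝒰 p π hup N _ _ y u ?_ ?_ ?_ ?_
  · -- algebraic over the `u a`
    apply h5
    let T : (Matrix m m k × Matrix (Fin 2) (Fin 2) k) →ₗ[k]
        (Fin (Fintype.card ((m × m) ⊕ (Fin 2 × Fin 2))) → k) :=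
      { toFun := fun Z a => Sum.elim (fun q => Z.1 q.1 q.2) (fun q => Z.2 q.1 q.2) (eU a)
        map_add' := by
          intro Z Z'
          funext a
          show Sum.elim (fun q => (Z + Z').1 q.1 q.2) (fun q => (Z + Z').2 q.1 q.2) (eU a) =
            Sum.elim (fun q => Z.1 q.1 q.2) (fun q => Z.2 q.1 q.2) (eU a) +
            Sum.elim (fun q => Z'.1 q.1 q.2) (fun q => Z'.2 q.1 q.2) (eU a)
          rcases eU a with q | q <;> rfl
        map_smul' := by
          intro r Z
          funext a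
          show Sum.elim (fun q => (r • Z).1 q.1 q.2) (fun q => (r • Z).2 q.1 q.2) (eU a) =
            r • Sum.elim (fun q => Z.1 q.1 q.2) (fun q => Z.2 q.1 q.2) (eU a)
          rcases eU a with q | q <;> rfl }
    have hT : LinearMap.ker T = ⊥ := by
      rw [LinearMap.ker_eq_bot']
      intro Z hZ
      have hZ' : ∀ q, Sum.elim (fun q : m × m => Z.1 q.1 q.2)
          (fun q : Fin 2 × Fin 2 => Z.2 q.1 q.2) q = 0 := by
        intro q
        have h := congrFun hZ (eU.symm q)
        have h' : Sum.elim (fun q : m × m => Z.1 q.1 q.2)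
          (fun q : Fin 2 × Fin 2 => Z.2 q.1 q.2) (eU (eU.symm q)) = 0 := h
        rwa [Equiv.apply_symm_apply] at h'
      refine Prod.ext ?_ ?_
      · ext i j
        exact hZ' (Sum.inl (i, j))
      · ext i j
        exact hZ' (Sum.inr (i, j))
    have h := hind.map' T hT
    have heq : (fun i : Fin N => fun a : Fin (Fintype.card ((m × m) ⊕ (Fin 2 × Fin 2))) =>
        MvPolynomial.eval (fun _ => (0 : k))
          (MvPolynomial.pderiv i (MvPolynomial.map π (u a)))) =
        T ∘ fun l : Fin N => lg (w l) := by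
      funext i a
      show MvPolynomial.eval (fun _ => (0 : k))
        (MvPolynomial.pderiv i (MvPolynomial.map π (u a))) =
        Sum.elim (fun q => (lg (w i)).1 q.1 q.2) (fun q => (lg (w i)).2 q.1 q.2) (eU a)
      rw [huπ]
      rcases eU a with q | q
      · exact INJ_der h3 (star π W) n N w hnil i q.1 q.2
      · exact INJ_der h3 (star π ρ) 2 N w hnilρ i q.1 q.2
    rw [heq]
    exact h
  · -- one variable is transcendental over the `y a`
    obtain ⟨i, hi⟩ : ∃ i, c i ≠ 0 := by
      by_contra hne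
      push Not at hne
      exact hc0 (funext hne)
    refine ⟨i, ?_⟩
    let D : Derivation k (MvPolynomial (Fin N) k) (MvPolynomial (Fin N) k) :=
      ∑ i, c i • MvPolynomial.pderiv i
    have hD : ∀ f, D f = ∑ i, c i * MvPolynomial.pderiv i f := by
      intro f
      have h : ∀ S : Finset (Fin N), (∑ i ∈ S, c i • MvPolynomial.pderiv i :
          Derivation k (MvPolynomial (Fin N) k) (MvPolynomial (Fin N) k)) f =
          ∑ i ∈ S, c i * MvPolynomial.pderiv i f := by
        intro S
        induction S using Finset.induction_on with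
        | empty => rw [Finset.sum_empty, Finset.sum_empty, Derivation.zero_apply]
        | insert a S ha ih =>
          rw [Finset.sum_insert ha, Finset.sum_insert ha, Derivation.add_apply, ih]
          rfl
      exact h Finset.univ
    apply Pool.Agent.RG.TRC.TRC _ D
    · intro a ha
      induction ha using Algebra.adjoin_induction with
      | mem x hx =>
        obtain ⟨a, rfl⟩ := hx
        show D (MvPolynomial.map π (y a)) = 0
        rw [hD, hyπ]
        exact hc _ _
      | algebraMap r => exact D.map_algebraMap r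
      | add x y _ _ hx hy => rw [map_add, hx, hy, add_zero]
      | mul x y _ _ hx hy => rw [Derivation.leibniz, hx, hy, smul_zero, smul_zero, add_zero]
    · rw [hD, Finset.sum_eq_single i]
      · rw [MvPolynomial.pderiv_X_self, mul_one]
        exact hi
      · intro l _ hl
        rw [MvPolynomial.pderiv_X_of_ne hl.symm, mul_zero]
      · intro h
        exact absurd (Finset.mem_univ i) h
  · -- prime field
    filter_upwards [hVW] with j hj a t
    show ∃ s : ℕ, vl (psi n (fun l => mt W (w l)) (eY a).1 (eY a).2) j t = _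
    rw [hj]
    exact hW j _ _ _
  · -- fibres
    intro c
    filter_upwards [hVW, hVρ, hK c] with j hj hjρ hKj t
    obtain ⟨s, hs, hs'⟩ := hKj
    let g : (Fin N → ℕ) → Γ := fun t => (List.ofFn fun l => w l j ^ t l).prod
    let F : Matrix (Fin 2) (Fin 2) (κ j) →
        (Fin (Fintype.card ((m × m) ⊕ (Fin 2 × Fin 2))) → κ j) := fun A a =>
      Sum.elim (fun q => W j (g t) q.1 q.2) (fun q => (ρ j (g t) * A) q.1 q.2) (eU a)
    refine ⟨s.image F, (Nat.mul_le_mul_left c Finset.card_image_le).trans hs, ?_⟩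
    intro t' ht'
    have hWeq : W j (g t') = W j (g t) := by
      ext a b
      have h := ht' (eY.symm (a, b))
      have hy1 : ∀ t, vl (y (eY.symm (a, b))) j t = W j (g t) a b := by
        intro t
        show vl (psi n (fun l => mt W (w l)) (eY (eY.symm (a, b))).1 (eY (eY.symm (a, b))).2) j t
          = _
        rw [Equiv.apply_symm_apply, hj]
      rw [hy1, hy1] at h
      exact h
    have hdet : ∀ t, (ρ j (g t)).det = 1 := fun t =>
      INJ_det h1 (p j) (hup.prime j) (hup.char j) (ρ j) (fun l => w l j)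
        (fun l => (hwp l j).2) t
    have hW1 : W j ((g t)⁻¹ * g t') = 1 := by
      rw [map_mul, hWeq, ← map_mul, inv_mul_cancel, map_one]
    have hρ1 : ρ j (g t') = ρ j (g t) * ρ j ((g t)⁻¹ * g t') := by
      rw [← map_mul, mul_inv_cancel_left]
    have hd1 : (ρ j ((g t)⁻¹ * g t')).det = 1 := by
      have h := congrArg Matrix.det hρ1
      rw [Matrix.det_mul, hdet, hdet, one_mul] at h
      exact h.symm
    rw [Finset.mem_image]
    refine ⟨ρ j ((g t)⁻¹ * g t'), hs' _ hW1 hd1, ?_⟩
    funext a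
    show Sum.elim (fun q => W j (g t) q.1 q.2)
      (fun q => (ρ j (g t) * ρ j ((g t)⁻¹ * g t')) q.1 q.2) (eU a) =
      vl (Sum.elim (fun q => psi n (fun l => mt W (w l)) q.1 q.2)
      (fun q => psi 2 (fun l => mt ρ (w l)) q.1 q.2) (eU a)) j t'
    rw [← hρ1]
    rcases eU a with q | q
    · show W j (g t) q.1 q.2 = vl (psi n (fun l => mt W (w l)) q.1 q.2) j t'
      rw [hj, ← hWeq]
    · show ρ j (g t') q.1 q.2 = vl (psi 2 (fun l => mt ρ (w l)) q.1 q.2) j t'
      rw [hjρ]

end Pool.Agent.HZ
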