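import Mathlib
import Pool.Agent.helper91.HZ.Spec

/-!
# Project HZ, row PSD
-/

namespace Pool.Agent.HZ

open Matrix Polynomial Pool.Agent.GO Pool.Agent.AR NumberField

section

variable {m : Type} [Fintype m] [DecidableEq m]

/-- `PW` and algebra homomorphisms -/
theorem PSD_map {R : Type} [CommRing R] [Inv R] (n : ℕ) (A : Matrix m m R) {S S' : Type}
    [CommRing S] [Algebra R S] [CommRing S'] [Algebra R S'] (f : S →ₐ[R] S') (T : S) :
    (PW n A T).map f = PW n A (f T) := by
  unfold PW
  ext a b
  rw [Matrix.map_apply, Matrix.sum_apply, Matrix.sum_apply, map_sum]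
  refine Finset.sum_congr rfl fun i _ => ?_
  rw [Matrix.smul_apply, Matrix.smul_apply, Matrix.map_apply, Matrix.map_apply, smul_eq_mul,
    smul_eq_mul, map_mul, map_mul, map_prod, AlgHom.commutes, AlgHom.commutes]
  congr 2
  refine Finset.prod_congr rfl fun l _ => ?_
  rw [map_sub, map_natCast]

variable {k : Type} [Field k] [CharZero k]

/-- values at natural numbers -/
theorem PSD_val (h1 : PSE_stmt) (n : ℕ) (A : Matrix m m k) (hA : (A - 1) ^ n = 0) (s : ℕ) :
    PW n A ((s : ℕ) : k) = A ^ s := by
  have h := h1 n 1 (fun _ : Fin 1 => A) (fun i _ => Nat.cast_ne_zero.2 (Nat.factorial_ne_zero i))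
    (fun _ => hA) (fun _ => s)
  rw [List.ofFn_succ, List.ofFn_zero, List.prod_cons, List.prod_nil, mul_one] at h
  rw [← h]
  unfold psi
  rw [List.ofFn_succ, List.ofFn_zero, List.prod_cons, List.prod_nil, mul_one]
  have h2 := PSD_map n A (MvPolynomial.aeval fun _ : Fin 1 => ((s : ℕ) : k))
    (MvPolynomial.X 0 : MvPolynomial (Fin 1) k)
  rw [MvPolynomial.aeval_X] at h2
  rw [← h2]
  ext1 a b
  exact (RingHom.congr_fun (MvPolynomial.coe_aeval_eq_eval fun _ : Fin 1 => ((s : ℕ) : k))
    (PW n A (MvPolynomial.X 0 : MvPolynomial (Fin 1) k) a b)).symm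

/-- the derivative at zero of a falling factorial -/
theorem PSD_fall (i : ℕ) : (derivative (∏ l ∈ Finset.range i, ((X : k[X]) - (l : k[X])))).eval 0 *
    cf k i = (-1) ^ (i + 1) * ((i : ℕ) : k)⁻¹ := by
  rcases i with _ | i
  · simp
  · rw [Finset.prod_range_succ', derivative_mul, eval_add, eval_mul, eval_mul]
    have e1 : (((X : k[X]) - ((0 : ℕ) : k[X]))).eval 0 = 0 := by simp
    have e2 : (derivative ((X : k[X]) - ((0 : ℕ) : k[X]))).eval 0 = 1 := by simp
    rw [e1, e2, mul_zero, zero_add, mul_one, eval_prod]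
    have e3 : ∏ l ∈ Finset.range i, (((X : k[X]) - ((l + 1 : ℕ) : k[X]))).eval 0 =
        (-1) ^ i * ((i.factorial : ℕ) : k) := by
      have e4 : ∀ l ∈ Finset.range i, (((X : k[X]) - ((l + 1 : ℕ) : k[X]))).eval 0 =
          (-1) * (((l + 1 : ℕ) : k)) := by
        intro l _
        rw [eval_sub, eval_X, eval_natCast]
        ring
      rw [Finset.prod_congr rfl e4, Finset.prod_mul_distrib, Finset.prod_const, Finset.card_range,
        ← Nat.cast_prod, Finset.prod_range_add_one_eq_factorial]
    rw [e3]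
    unfold cf
    have h1 : ((i.factorial : ℕ) : k) ≠ 0 := Nat.cast_ne_zero.2 (Nat.factorial_ne_zero i)
    have h2 : (((i + 1 : ℕ)) : k) ≠ 0 := Nat.cast_ne_zero.2 (Nat.succ_ne_zero i)
    rw [Nat.factorial_succ, Nat.cast_mul]
    field_simp
    ring

/-- the derivative at zero -/
theorem PSD_zero (n : ℕ) (A : Matrix m m k) (a b : m) :
    (derivative (PW n A (X : k[X]) a b)).eval 0 = Lg n A a b := by
  unfold PW Lg
  rw [Matrix.sum_apply, Matrix.sum_apply, derivative_sum, eval_finsetSum]
  refine Finset.sum_congr rfl fun i _ => ?_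
  rw [Matrix.smul_apply, Matrix.smul_apply, Matrix.map_apply, smul_eq_mul, smul_eq_mul,
    ← PSD_fall (k := k) i]
  rw [Polynomial.algebraMap_eq, mul_assoc, derivative_C_mul, eval_mul, eval_C,
    derivative_mul, derivative_C, mul_zero, add_zero, eval_mul, eval_C]
  ring

/-- the derivative at a natural number -/
theorem PSD_nat (h1 : PSE_stmt) (n : ℕ) (A : Matrix m m k) (hA : (A - 1) ^ n = 0) (s : ℕ)
    (a b : m) : (derivative (PW n A (X : k[X]) a b)).eval ((s : ℕ) : k) =
      (Lg n A * A ^ s) a b := by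
  have hev : ∀ (r : ℕ) (a b : m), (PW n A (X : k[X]) a b).eval ((r : ℕ) : k) = (A ^ r) a b := by
    intro r a b
    rw [← PSD_val h1 n A hA r]
    have h2 := PSD_map n A (Polynomial.aeval ((r : ℕ) : k)) (X : k[X])
    rw [Polynomial.aeval_X] at h2
    rw [← h2]
    exact (RingHom.congr_fun (Polynomial.coe_aeval_eq_evalRingHom ((r : ℕ) : k))
      (PW n A (X : k[X]) a b)).symm
  have hpoly : (PW n A (X : k[X]) a b).comp (X + C ((s : ℕ) : k)) =
      ∑ c, PW n A (X : k[X]) a c * C ((A ^ s) c b) := by
    apply Polynomial.eq_of_infinite_eval_eq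
    refine Set.Infinite.mono ?_ (Set.infinite_range_of_injective (Nat.cast_injective (R := k)))
    rintro _ ⟨r, rfl⟩
    show ((PW n A (X : k[X]) a b).comp (X + C ((s : ℕ) : k))).eval ((r : ℕ) : k) = _
    rw [eval_comp, eval_add, eval_X, eval_C, ← Nat.cast_add, hev, eval_finsetSum, pow_add,
      Matrix.mul_apply]
    refine Finset.sum_congr rfl fun c _ => ?_
    rw [eval_mul, eval_C, hev]
  have hder := congrArg (fun q => (derivative q).eval 0) hpoly
  rw [derivative_comp, eval_mul, eval_comp, eval_add, eval_X, eval_C, zero_add] at hder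
  have e1 : (derivative (X + C ((s : ℕ) : k))).eval 0 = 1 := by simp
  rw [e1, one_mul, derivative_sum, eval_finsetSum] at hder
  rw [hder, Matrix.mul_apply]
  refine Finset.sum_congr rfl fun c _ => ?_
  rw [derivative_mul, derivative_C, mul_zero, add_zero, eval_mul, eval_C, PSD_zero]

/-- the logarithm of a conjugate -/
theorem PSD_conj (n : ℕ) (A B B' : Matrix m m k) (h : B * B' = 1) (h' : B' * B = 1) :
    Lg n (B * A * B') = B * Lg n A * B' := by
  have hp : ∀ i : ℕ, (B * A * B' - 1) ^ i = B * (A - 1) ^ i * B' := by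
    intro i
    induction i with
    | zero => rw [pow_zero, pow_zero, mul_one, h]
    | succ i ih =>
      have e : B * A * B' - 1 = B * (A - 1) * B' := by
        rw [mul_sub, sub_mul, mul_one, h]
      rw [pow_succ, ih, e, pow_succ]
      calc B * (A - 1) ^ i * B' * (B * (A - 1) * B')
          = B * (A - 1) ^ i * (B' * B) * (A - 1) * B' := by simp only [mul_assoc]
        _ = B * ((A - 1) ^ i * (A - 1)) * B' := by rw [h', mul_one]; simp only [mul_assoc]
  unfold Lg
  rw [Matrix.mul_sum, Matrix.sum_mul]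
  refine Finset.sum_congr rfl fun i _ => ?_
  rw [hp, Matrix.mul_smul, Matrix.smul_mul]

end

section deriv

variable {m : Type} [Fintype m] [DecidableEq m] {k : Type} [Field k] {N : ℕ}

/-- the derivative of a matrix -/
noncomputable def PSD_d (i : Fin N) (A : Matrix m m (MvPolynomial (Fin N) k)) :
    Matrix m m (MvPolynomial (Fin N) k) := A.map (MvPolynomial.pderiv i)

theorem PSD_d_mul (i : Fin N) (A B : Matrix m m (MvPolynomial (Fin N) k)) :
    PSD_d i (A * B) = PSD_d i A * B + A * PSD_d i B := by
  ext1 a b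
  rw [Matrix.add_apply, Matrix.mul_apply, Matrix.mul_apply]
  show MvPolynomial.pderiv i ((A * B) a b) = _
  rw [Matrix.mul_apply, map_sum, ← Finset.sum_add_distrib]
  refine Finset.sum_congr rfl fun c _ => ?_
  rw [Derivation.leibniz]
  show A a c • MvPolynomial.pderiv i (B c b) + B c b • MvPolynomial.pderiv i (A a c) =
    MvPolynomial.pderiv i (A a c) * B c b + A a c * MvPolynomial.pderiv i (B c b)
  rw [smul_eq_mul, smul_eq_mul]
  ring

theorem PSD_d_one (i : Fin N) : PSD_d i (1 : Matrix m m (MvPolynomial (Fin N) k)) = 0 := by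
  ext1 a b
  show MvPolynomial.pderiv i ((1 : Matrix m m (MvPolynomial (Fin N) k)) a b) = 0
  by_cases h : a = b
  · subst h
    rw [Matrix.one_apply_eq]
    exact MvPolynomial.pderiv_one
  · rw [Matrix.one_apply_ne h, map_zero]

theorem PSD_d_list (i : Fin N) (L : List (Matrix m m (MvPolynomial (Fin N) k)))
    (h : ∀ A ∈ L, PSD_d i A = 0) : PSD_d i L.prod = 0 := by
  induction L with
  | nil => rw [List.prod_nil, PSD_d_one]
  | cons A L ih =>
    rw [List.prod_cons, PSD_d_mul, h A (List.mem_cons_self ..), zero_mul, zero_add,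
      ih (fun B hB => h B (List.mem_cons_of_mem _ hB)), mul_zero]

/-- splitting a list at `i` -/
theorem PSD_split {M : Type} [Monoid M] (F : Fin N → M) (i : Fin N) :
    (List.ofFn F).prod = (List.take i (List.ofFn F)).prod * F i *
      (List.drop (i + 1) (List.ofFn F)).prod := by
  have hi : (i : ℕ) < (List.ofFn F).length := by rw [List.length_ofFn]; exact i.2
  conv_lhs => rw [← List.prod_take_mul_prod_drop (List.ofFn F) (i : ℕ)]
  rw [List.drop_eq_getElem_cons hi, List.prod_cons, ← mul_assoc]
  congr 2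
  rw [List.getElem_ofFn]

theorem PSD_mem_take {M : Type} (F : Fin N → M) (i : Fin N) (x : M)
    (hx : x ∈ List.take i (List.ofFn F)) : ∃ l, l ≠ i ∧ x = F l := by
  rw [List.mem_iff_getElem] at hx
  obtain ⟨j, hj, rfl⟩ := hx
  rw [List.getElem_take, List.getElem_ofFn]
  rw [List.length_take, List.length_ofFn] at hj
  refine ⟨_, ?_, rfl⟩
  intro h
  have := congrArg Fin.val h
  simp only at this
  omega

theorem PSD_mem_drop {M : Type} (F : Fin N → M) (i : Fin N) (x : M)
    (hx : x ∈ List.drop (i + 1) (List.ofFn F)) : ∃ l, l ≠ i ∧ x = F l := by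
  rw [List.mem_iff_getElem] at hx
  obtain ⟨j, hj, rfl⟩ := hx
  rw [List.getElem_drop, List.getElem_ofFn]
  refine ⟨_, ?_, rfl⟩
  intro h
  have := congrArg Fin.val h
  simp only at this
  omega

end deriv

theorem PSD (h1 : PSE_stmt) : PSD_stmt := by
  intro k m G _ _ _ _ _ V n N w hw i t
  have hcf : True := trivial
  let F : Fin N → Matrix m m (MvPolynomial (Fin N) k) := fun l =>
    PW n (V (w l)) (MvPolynomial.X l : MvPolynomial (Fin N) k)
  have hpsi : (psi n fun l => V (w l)) = (List.ofFn F).prod := rfl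
  -- univariate version of the factors
  have hF : ∀ l, F l = (PW n (V (w l)) (X : k[X])).map
      (Polynomial.aeval (MvPolynomial.X l : MvPolynomial (Fin N) k)) := by
    intro l
    rw [PSD_map n (V (w l)) (Polynomial.aeval (MvPolynomial.X l : MvPolynomial (Fin N) k)) X,
      Polynomial.aeval_X]
  have hd0 : ∀ l, l ≠ i → PSD_d i (F l) = 0 := by
    intro l hl
    ext1 a b
    show MvPolynomial.pderiv i (F l a b) = 0
    rw [hF, Matrix.map_apply, Derivation.map_aeval, MvPolynomial.pderiv_X_of_ne hl, smul_zero]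
  let e : Matrix m m (MvPolynomial (Fin N) k) →+* Matrix m m k :=
    (MvPolynomial.eval fun l => ((t l : ℕ) : k)).mapMatrix
  have he : ∀ l, e (F l) = V (w l ^ t l) := by
    intro l
    rw [map_pow, ← PSD_val h1 n (V (w l)) (hw l) (t l)]
    have h2 := PSD_map n (V (w l)) (MvPolynomial.aeval fun l => ((t l : ℕ) : k))
      (MvPolynomial.X l : MvPolynomial (Fin N) k)
    rw [MvPolynomial.aeval_X] at h2
    rw [← h2]
    ext1 a b
    exact (RingHom.congr_fun (MvPolynomial.coe_aeval_eq_eval fun l => ((t l : ℕ) : k))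
      (F l a b)).symm
  have hedi : e (PSD_d i (F i)) = Lg n (V (w i)) * V (w i) ^ t i := by
    ext a b
    rw [← PSD_nat h1 n (V (w i)) (hw i) (t i) a b]
    show MvPolynomial.eval (fun l => ((t l : ℕ) : k)) (MvPolynomial.pderiv i (F i a b)) = _
    rw [hF, Matrix.map_apply, Derivation.map_aeval, MvPolynomial.pderiv_X_self, smul_eq_mul,
      mul_one]
    rw [← MvPolynomial.coe_aeval_eq_eval]
    have h3 : (MvPolynomial.aeval fun l => ((t l : ℕ) : k))
        ((Polynomial.aeval (MvPolynomial.X i : MvPolynomial (Fin N) k))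
          (derivative (PW n (V (w i)) (X : k[X]) a b))) =
        Polynomial.aeval ((MvPolynomial.aeval fun l => ((t l : ℕ) : k))
          (MvPolynomial.X i : MvPolynomial (Fin N) k))
          (derivative (PW n (V (w i)) (X : k[X]) a b)) := by
      rw [Polynomial.aeval_algHom_apply]
    refine Eq.trans h3 ?_
    rw [MvPolynomial.aeval_X, Polynomial.coe_aeval_eq_eval]
  have hlist : ∀ L : List G, e (L.map fun _ => (1 : Matrix m m (MvPolynomial (Fin N) k))).prod =
      1 := by
    intro L
    rw [List.map_const', List.prod_replicate, one_pow, map_one]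
  have hdpsi : PSD_d i (List.ofFn F).prod = (List.take i (List.ofFn F)).prod * PSD_d i (F i) *
      (List.drop (i + 1) (List.ofFn F)).prod := by
    rw [PSD_split F i, PSD_d_mul, PSD_d_mul,
      PSD_d_list i (List.take i (List.ofFn F)) (by
        intro A hA
        obtain ⟨l, hl, rfl⟩ := PSD_mem_take F i A hA
        exact hd0 l hl),
      PSD_d_list i (List.drop (i + 1) (List.ofFn F)) (by
        intro A hA
        obtain ⟨l, hl, rfl⟩ := PSD_mem_drop F i A hA
        exact hd0 l hl), zero_mul, zero_add, mul_zero, add_zero]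
  have hmapF : (List.ofFn F).map e = (List.ofFn fun l => w l ^ t l).map V := by
    rw [List.map_ofFn, List.map_ofFn]
    congr 1
    funext l
    exact he l
  have htake : e (List.take i (List.ofFn F)).prod =
      V (List.take i (List.ofFn fun l => w l ^ t l)).prod := by
    rw [map_list_prod, map_list_prod, List.map_take, List.map_take, hmapF]
  have hdrop : e (List.drop (i + 1) (List.ofFn F)).prod =
      V (List.drop (i + 1) (List.ofFn fun l => w l ^ t l)).prod := by
    rw [map_list_prod, map_list_prod, List.map_drop, List.map_drop, hmapF]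
  have hgoal : (psi n fun l => V (w l)).map
      (fun f => MvPolynomial.eval (fun l => ((t l : ℕ) : k)) (MvPolynomial.pderiv i f)) =
      e (PSD_d i (List.ofFn F).prod) := by
    rw [hpsi]
    rfl
  rw [hgoal, hdpsi, map_mul, map_mul, htake, hdrop, hedi, PSD_split (fun l => w l ^ t l) i]
  set g := (List.take i (List.ofFn fun l => w l ^ t l)).prod with hg
  have hVg : V g * V g⁻¹ = 1 := by rw [← map_mul, mul_inv_cancel, map_one]
  have hVg' : V g⁻¹ * V g = 1 := by rw [← map_mul, inv_mul_cancel, map_one]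
  rw [map_mul V (g * w i) g⁻¹, map_mul V g (w i), PSD_conj n (V (w i)) (V g) (V g⁻¹) hVg hVg',
    map_mul V, map_mul V, map_pow]
  calc V g * (Lg n (V (w i)) * V (w i) ^ t i) *
        V (List.drop (i + 1) (List.ofFn fun l => w l ^ t l)).prod
      = V g * Lg n (V (w i)) * 1 * V (w i) ^ t i *
        V (List.drop (i + 1) (List.ofFn fun l => w l ^ t l)).prod := by
          rw [mul_one]; simp only [mul_assoc]
    _ = V g * Lg n (V (w i)) * V g⁻¹ * (V g * V (w i) ^ t i *
        V (List.drop (i + 1) (List.ofFn fun l => w l ^ t l)).prod) := by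
          rw [← hVg']; simp only [mul_assoc]

end Pool.Agent.HZ
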