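import Mathlib
import Pool.Agent.helper91.HZ.Fin
import Pool.Agent.helper91.HZ.INJ
import Pool.Agent.helper91.HZ.CNT
import Pool.Agent.helper91.HZ.PSD
import Pool.Agent.helper97.HZ.ADS
import Pool.Agent.helper32.HZ.BTO
import Pool.Agent.helper8.HZ.BW3
import Pool.Agent.helper50.HZ.BWD
import Pool.Agent.helper18.HZ.DER
import Pool.Agent.helper72.HZ.EXT
import Pool.Agent.helper41.HZ.FWD
import Pool.Agent.helper68.HZ.JAC
import Pool.Agent.helper75.HZ.KCD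
import Pool.Agent.helper25.HZ.LCJ
import Pool.Agent.helper25.HZ.NIL
import Pool.Agent.helper25.HZ.PIG
import Pool.Agent.helper53.HZ.PSE
import Pool.Agent.helper13.HZ.PSM
import Pool.Agent.helper30.HZ.RDC
import Pool.Agent.helper52.HZ.RMU
import Pool.Agent.helper72.HZ.SPN
import Pool.Agent.helper99.HZ.SZ
import Pool.Agent.helper53.HZ.TRB
import Pool.Agent.helper72.HZ.TWO
import Pool.Agent.helper25.HZ.ULT
import Pool.Agent.helper25.HZ.UPF
import Pool.Agent.helper53.HZ.VPS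

/-!
# Project HZ (MP_2e0e07_nt, HorizontalCriterion): all rows together
-/

namespace Pool.Agent.HZ

open Matrix Polynomial Pool.Agent.GO Pool.Agent.AR Pool.Agent.RG MeasureTheory NumberField

universe u v

theorem der_all : DER_stmt := DER PSE (PSD PSE)

theorem inj_all : INJ_stmt :=
  INJ NIL (VPS PSE PSM NIL) (PSD PSE) der_all JAC (CNT SZ BTO TRB PIG)

theorem fwd_all : FWD_stmt.{u} :=
  FWD ULT UPF KCD inj_all (SPN NIL LCJ) LCJ ADS RDC

theorem bwd_all : BWD_stmt.{u, v} := BWD (BW3 EXT) RMU TWO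

theorem final_all {Γ : Type} {Place : Type u} {E : Type}
    [Group Γ] [TopologicalSpace Γ] [IsTopologicalGroup Γ] [CompactSpace Γ] [MeasurableSpace Γ]
    [BorelSpace Γ] (μ : Measure Γ) [μ.IsHaarMeasure] (frob : Place → Set Γ)
    (hd : DenseIn frob ⊤ Set.univ) [Field E] [NumberField E] {r : ℕ} {n : Fin r → ℕ}
    (P : Fin r → Place → E[X]) (Q : Place → E[X]) (i₀ : Fin r)
    (hdet : ∀ v, P i₀ v = X - C ((Q v).coeff 0)) {J : Type} [Infinite J] (p : J → ℕ)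
    (κ : J → Type) [∀ j, Field (κ j)] [∀ j, IsAlgClosed (κ j)] [∀ j, CharP (κ j) (p j)]
    (φ : ∀ j, 𝓞 E →+* κ j)
    (V' : ∀ j, (i : Fin r) → Γ →* Matrix (Fin (n i)) (Fin (n i)) (ZMod (p j)))
    (ρ' : ∀ j, Γ →* Matrix (Fin 2) (Fin 2) (κ j)) (hR' : IsResidual frob P Q p κ φ V' ρ')
    {F : Type v} [Field F] [IsAlgClosed F] [CharZero F] [TopologicalSpace F]
    [IsTopologicalRing F] [T2Space F] (ι : E →+* F)
    (V : (i : Fin r) → Γ →* Matrix (Fin (n i)) (Fin (n i)) F)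
    (ρ : Γ →* Matrix (Fin 2) (Fin 2) F) (hR : IsRealisation frob P Q ι V ρ) :
    ((∃ (U : Subgroup Γ) (a b : ℕ), IsOpen (U : Set Γ) ∧
        AdSubquotient U ρ (tens (dirSum V) a b)) ↔
      ∃ B : ℕ, ∀ j, adDegree (V' j) (ρ' j) ≤ B) ∧
    ((∃ B : ℕ, ∀ j, adDegree (V' j) (ρ' j) ≤ B) ↔
      ∀ c : ℕ, {j | c * adDegree (V' j) (ρ' j) < p j}.Infinite) ∧
    ∀ (q : Place → ℕ) (s : ℕ) (w : Fin r → ℕ) (O : Set Place),
      IsGoodSet μ frob n P Q q s w O →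
      (Arises V ρ ↔ ∃ B : ℕ, ∀ j, adDegree (V' j) (ρ' j) ≤ B) :=
  final fwd_all bwd_all μ frob hd P Q i₀ hdet p κ φ V' ρ' hR' ι V ρ hR

end Pool.Agent.HZ
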